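import Mathlib
import Pool.Agent.H96R3.BC.Stmts
import Pool.Agent.H96R3.BC.FixDefs
import Pool.Agent.H13R3.EM.Defs

/-!
# PROJECT ET: MP_be4568_nt is false (products of error terms of Selberg class functions)

The machine of project BIGCOEF (`Pool/Agent/H96R3/BC/Stmts.lean`) with a forcing: prime coefficients
`y p = s p + x p`, the forcing `s` has exactly vanishing moments of order `< 4 Q + 4` on each cell, the response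
`x` is given by the interpolation weights `w`.
-/

set_option autoImplicit false

open Finset

namespace Pool.Agent.H394R3.ET

open Pool.Agent.H96R3.BC (vv UU CC cf Wts Sol NN TaskKer1 TaskKer2 TaskLag TaskBase TaskSum TaskDef)
open Pool.Agent.H469R10.HO (Hoheisel TaskF)

/-- the composite integers of the cell `j` -/
def KC (Q j : ℕ) : Finset ℕ := (CC Q j).filter (fun n => ¬ n.Prime)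

/-- summatory function -/
noncomputable abbrev AS (a : ℕ → ℝ) (x : ℝ) : ℝ := Pool.Agent.H13R3.EM.EE a x

/-- a forcing -/
structure Frc (Q j₀ : ℕ) (s : ℕ → ℝ) : Prop where
  supp : ∀ n, s n ≠ 0 → n.Prime ∧ j₀ ^ (2 * Q) < n
  bd : ∀ n : ℕ, |s n| ≤ 1 / 2 / (Real.log n) ^ 2
  mom : ∀ j, j₀ ≤ j → ∀ P : Polynomial ℝ, P.natDegree < 4 * Q + 4 →
    ∑ p ∈ CC Q j, s p * (vv Q j₀ p) ^ 2 * P.eval (vv Q j₀ p) = 0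

/-- solution of the fixed point equation with forcing `s`: response `x`, density `f`. -/
structure Out (Q j₀ : ℕ) (w : ℕ → ℝ → ℝ) (s x : ℕ → ℝ) (f : ℝ → ℝ) : Prop where
  xsupp : ∀ n, x n ≠ 0 → n.Prime ∧ j₀ ^ (2 * Q) < n
  xbd : ∀ n : ℕ, |x n| ≤ 1 / 2 / (Real.log n) ^ 2
  sol : Sol Q j₀ (fun _ => 0) (fun p => s p + x p) f
  fbd : ∀ v : ℝ, 0 ≤ v → |f v| ≤ (j₀ : ℝ) ^ Q * NN Q v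
  resp : ∀ j, j₀ ≤ j → ∀ p ∈ CC Q j, p.Prime → x p =
    ((∫ u in (UU j₀ j)..(UU j₀ (j + 1)), f u * w p u) -
      ∑ n ∈ KC Q j, cf (fun p => s p + x p) n * (vv Q j₀ n) ^ 2 * w p (vv Q j₀ n)) / (vv Q j₀ p) ^ 2

/-- mass of the composite numbers of a cell -/
def Mass (Q j₀ : ℕ) (s' : ℝ) : Prop := ∀ j, j₀ ≤ j → ∀ T : Finset ℕ, T ⊆ KC Q j →
  (∀ n ∈ T, Squarefree n ∧ ∀ p ∈ n.primeFactors, j₀ ^ (2 * Q) < p) →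
  ∑ n ∈ T, ∏ p ∈ n.primeFactors, (2 / (Real.log p) ^ 2) ≤ s' * (CC Q j).card / (Real.log j) ^ 3

/-- TASK MACH (helper394). -/
def TaskMach : Prop := ∃ Q₀ : ℕ, ∀ Q : ℕ, Q₀ ≤ Q → ∃ C : ℝ, 0 < C ∧ ∀ s' : ℝ, 0 < s' → ∃ J₀ : ℕ, ∀ j₀ : ℕ, J₀ ≤ j₀ →
  Mass Q j₀ s' ∧ ∃ (a0 : ℕ → ℝ) (w : ℕ → ℝ → ℝ), Wts Q j₀ C a0 w ∧
    ∀ s : ℕ → ℝ, Frc Q j₀ s → ∃ (x : ℕ → ℝ) (f : ℝ → ℝ), Out Q j₀ w s x f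

/-- majorant `n^(-ρ(n))` -/
noncomputable def HH (ρ : ℕ → ℝ) (n : ℕ) : ℝ := (n : ℝ) ^ (-ρ n)

/-- TASK DECAY: the response decays like the forcing (strong induction on the cells). -/
def TaskDecay : Prop := ∃ Q₀ : ℕ, ∀ Q : ℕ, Q₀ ≤ Q → ∀ C : ℝ, 0 < C → ∃ s' : ℝ, 0 < s' ∧ ∃ J₀ : ℕ, ∀ j₀ : ℕ, J₀ ≤ j₀ →
  ∀ (a0 : ℕ → ℝ) (w : ℕ → ℝ → ℝ), Wts Q j₀ C a0 w → Mass Q j₀ s' →
  ∀ (ρ : ℕ → ℝ), Antitone ρ → (∀ n, 0 ≤ ρ n ∧ ρ n ≤ 1 / 8) →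
  ∀ (s x : ℕ → ℝ) (f : ℝ → ℝ), Frc Q j₀ s → Out Q j₀ w s x f →
  (∀ n : ℕ, |s n| ≤ 1 / 2 * HH ρ n / (Real.log n) ^ 2) → ∀ n : ℕ, |x n| ≤ 1 / 2 * HH ρ n / (Real.log n) ^ 2

/-- TASK JUNK: composite numbers and responses in a cell of a window `(R^(2Q), 2 R^(2Q)]`. -/
def TaskJunk : Prop := ∃ Q₀ : ℕ, ∀ Q : ℕ, Q₀ ≤ Q → ∀ C : ℝ, 0 < C → ∀ j₀ : ℕ, 3 ≤ j₀ → ∃ K : ℝ, 0 < K ∧
  ∀ (a0 : ℕ → ℝ) (w : ℕ → ℝ → ℝ), Wts Q j₀ C a0 w →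
  ∀ (s x : ℕ → ℝ) (f : ℝ → ℝ), Frc Q j₀ s → Out Q j₀ w s x f →
  ∀ (R J : ℕ) (r : ℝ), j₀ ≤ R → R ≤ J → (J + 1) ^ (2 * Q) ≤ 2 * R ^ (2 * Q) → 0 ≤ r → r ≤ 1 / 8 →
  (∀ q : ℕ, q.Prime → q ≤ R ^ (2 * Q) → |s q + x q| ≤ (q : ℝ) ^ (-r)) →
  ∑ n ∈ KC Q J, |cf (fun p => s p + x p) n| + ∑ p ∈ (CC Q J).filter Nat.Prime, |x p| ≤
    K * (CC Q J).card * (J : ℝ) ^ (-(2 * Q * r)) * Real.log J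

/-- TASK CELLS: the sum over complete cells (Taylor expansion of `u^(-2)` on the cells, moments). -/
def TaskCells : Prop := ∃ Q₀ : ℕ, ∀ Q : ℕ, Q₀ ≤ Q → ∀ C : ℝ, 0 < C → ∀ j₀ : ℕ, 3 ≤ j₀ → ∃ K : ℝ, 0 < K ∧
  ∀ (a0 : ℕ → ℝ) (w : ℕ → ℝ → ℝ), Wts Q j₀ C a0 w →
  ∀ (s x : ℕ → ℝ) (f : ℝ → ℝ), Frc Q j₀ s → Out Q j₀ w s x f →
  ∀ J : ℕ, j₀ ≤ J →
    |∑ n ∈ Icc 1 (J ^ (2 * Q)), cf (fun p => s p + x p) n| ≤ K * (J : ℝ) ^ ((3 * (Q : ℝ) + 1) / 2)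

/-- TASK BOUND: upper bound for the summatory function below a window. -/
def TaskBound : Prop := ∃ Q₀ : ℕ, ∀ Q : ℕ, Q₀ ≤ Q → ∀ j₀ : ℕ, 3 ≤ j₀ → ∀ K₁ : ℝ, 0 < K₁ → ∃ K : ℝ, 0 < K ∧
  ∀ y : ℕ → ℝ, (∀ p, p ≤ j₀ ^ (2 * Q) → y p = 0) →
  (∀ J : ℕ, j₀ ≤ J → |∑ n ∈ Icc 1 (J ^ (2 * Q)), cf y n| ≤ K₁ * (J : ℝ) ^ ((3 * (Q : ℝ) + 1) / 2)) →
  ∀ (R : ℕ) (r : ℝ), j₀ ≤ R → 0 ≤ r → r ≤ 1 / 16 → (∀ q : ℕ, q.Prime → q ≤ R ^ (2 * Q) → |y q| ≤ (q : ℝ) ^ (-r)) →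
  ∀ x : ℝ, 1 ≤ x → x ≤ (R : ℝ) ^ (2 * Q) → |AS (cf y) x| ≤ K * x ^ (1 - 1 / (2 * (Q : ℝ)) - r)

/-- TASK FOR: a forcing in one cell (divided differences at tuples of primes, one prime in the first `ε`-part
and `4 Q + 4` primes in the last `ε`-part of the cell). -/
def TaskFor : Prop := Hoheisel → ∃ Q₀ : ℕ, ∀ Q : ℕ, Q₀ ≤ Q → ∀ j₀ : ℕ, 1 ≤ j₀ → ∀ ε : ℝ, 0 < ε → ε < 1 / 4 →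
  ∃ c : ℝ, 0 < c ∧ ∃ J₁ : ℕ, ∀ j : ℕ, J₁ ≤ j → j₀ ≤ j → ∃ σ : ℕ → ℝ,
    (∀ n, σ n ≠ 0 → n.Prime ∧ n ∈ CC Q j) ∧ (∀ n, |σ n| ≤ 1) ∧
    (∀ P : Polynomial ℝ, P.natDegree < 4 * Q + 4 →
      ∑ p ∈ CC Q j, σ p * (vv Q j₀ p) ^ 2 * P.eval (vv Q j₀ p) = 0) ∧
    ∀ x : ℝ, (j : ℝ) ^ (2 * Q) + ε * (CC Q j).card ≤ x → x ≤ ((j : ℝ) + 1) ^ (2 * Q) - ε * (CC Q j).card →
      c * (CC Q j).card / Real.log j ≤ |∑ n ∈ (CC Q j).filter (fun n : ℕ => (n : ℝ) ≤ x), σ n|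

/-- TASK PROD: the summatory function of a convolution. -/
def TaskProd : Prop := ∀ (a g : ℕ → ℝ) (K θ r X : ℝ), 0 ≤ K → 0 < θ → 0 < r → g 1 = 1 →
  (∀ n : ℕ, 1 ≤ n → |g n| ≤ (n : ℝ) ^ (-(1 - θ + r))) →
  (∀ y : ℝ, 1 ≤ y → y ≤ X / 2 → |AS a y| ≤ K * y ^ θ) → ∀ x : ℝ, 1 ≤ x → x ≤ X →
  |AS (Pool.Agent.H13R3.EM.cv g a) x - AS a x| ≤ K * (1 + 1 / r) * x ^ θ

/-- TASK MEAS: positivity on the middle parts of the cells of a window gives a small exceptional set. -/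
def TaskMeas : Prop := ∀ Q : ℕ, 1 ≤ Q → ∀ ε : ℝ, 0 < ε → ε < 1 / 4 → ∃ R₀ : ℕ, ∀ R : ℕ, R₀ ≤ R → ∀ P : ℝ → ℝ,
  (∀ J : ℕ, R ≤ J → (J + 1) ^ (2 * Q) ≤ 2 * R ^ (2 * Q) → ∀ x : ℝ,
    (J : ℝ) ^ (2 * Q) + ε * (CC Q J).card ≤ x → x ≤ ((J : ℝ) + 1) ^ (2 * Q) - ε * (CC Q J).card → 0 < P x) →
  MeasureTheory.volume {x : ℝ | (R : ℝ) ^ (2 * Q) ≤ x ∧ x ≤ 2 * (R : ℝ) ^ (2 * Q) ∧ P x ≤ 0} ≤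
    ENNReal.ofReal (3 * ε * (R : ℝ) ^ (2 * Q))

/-- property `(A_δ)` with open subintervals (the weakest reading) -/
def Ad (δ σ : ℝ) (P : ℝ → ℝ) : Prop := ∃ c C T₀ : ℝ, 0 < c ∧ 0 < C ∧ 0 < T₀ ∧
  ∀ T : ℝ, T₀ ≤ T → ∀ e : ℝ, (e = 1 ∨ e = -1) → ∃ (N : ℕ) (u v : Fin N → ℝ),
    T ^ (1 - δ) ≤ N ∧ (∀ i, T ≤ u i ∧ v i ≤ 2 * T ∧ C * T ^ δ ≤ v i - u i) ∧
    (∀ i j, i ≠ j → Disjoint (Set.Ioo (u i) (v i)) (Set.Ioo (u j) (v j))) ∧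
    ∀ i, ∀ x ∈ Set.Ioo (u i) (v i), c * T ^ σ < e * P x

/-- TASK FIN: small exceptional sets contradict `(A_δ)`. -/
def TaskFin : Prop := ∀ P : ℝ → ℝ,
  (∀ ε T₀ : ℝ, 0 < ε → ∃ T : ℝ, T₀ ≤ T ∧ 0 < T ∧
    MeasureTheory.volume {x : ℝ | T ≤ x ∧ x ≤ 2 * T ∧ P x ≤ 0} ≤ ENNReal.ofReal (ε * T)) →
  ∀ δ σ : ℝ, ¬ Ad δ σ P

/-- TASK SELB: the theta relation gives an element of the Selberg class with all data, of degree `8 Q`. -/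
def TaskSelB : Prop := ∀ (Q j₀ : ℕ) (y : ℕ → ℝ), 1 ≤ Q → 2 ≤ j₀ →
  (∀ ε : ℝ, 0 < ε → ∃ C : ℝ, ∀ n : ℕ, 1 ≤ n → |cf y n| ≤ C * (n : ℝ) ^ ε) →
  (∀ p : ℕ, p.Prime → |y p| ≤ (p : ℝ) ^ (1 / 4 : ℝ)) →
  (∀ t : ℝ, 0 < t → ∑' n : ℕ, cf y n * (vv Q j₀ n) ^ 2 * Real.exp (-(vv Q j₀ n / t)) =
      t ^ (4 * Q + 4) * ∑' n : ℕ, cf y n * (vv Q j₀ n) ^ 2 * Real.exp (-(vv Q j₀ n * t))) →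
  ∃ F : Pool.Agent.H13R3.EM.Sel, F.m0 = 0 ∧ F.deg = 8 * (Q : ℝ) ∧ ∀ n : ℕ, 1 ≤ n → F.a n = ((cf y n : ℝ) : ℂ)

/-- TASK SEQ: the final inequality in a window. -/
def TaskIneq : Prop := ∀ Q : ℕ, 1 ≤ Q → ∀ (c K K₁ K₂ δ r : ℝ), 0 < c → 0 < K → 0 < K₁ → 0 < K₂ → 0 ≤ δ → δ < r → r ≤ 1 / 16 →
  8 ≤ Q → ∃ R₀ : ℕ, ∀ R : ℕ, R₀ ≤ R → ∀ J : ℕ, R ≤ J → (J + 1) ^ (2 * Q) ≤ 2 * R ^ (2 * Q) → ∀ x : ℝ, 1 ≤ x →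
    x ≤ 2 * (R : ℝ) ^ (2 * Q) →
    K * (CC Q J).card * (J : ℝ) ^ (-(2 * Q * r)) * Real.log J + K₁ * (J : ℝ) ^ ((3 * (Q : ℝ) + 1) / 2) +
      K₂ * x ^ (1 - 1 / (2 * (Q : ℝ)) - r) <
    ((R : ℝ) ^ (2 * Q)) ^ (-δ) * (c * (CC Q J).card / Real.log J)

end Pool.Agent.H394R3.ET
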