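import Pool.Agent.H394R3.ET.Stmts
import Pool.Agent.H96R3.BC.Fix3

/-!
# Project ET: auxiliary lemmas for the assembly
-/

set_option autoImplicit false

open Finset MeasureTheory

namespace Pool.Agent.H394R3.ET

open Pool.Agent.H96R3.BC

lemma cf_le_rpow {y : ℕ → ℝ} {r : ℝ} (hy : ∀ p : ℕ, p.Prime → |y p| ≤ (p : ℝ) ^ (-r)) {n : ℕ} (hn : 1 ≤ n) :
    |cf y n| ≤ (n : ℝ) ^ (-r) := by
  unfold cf
  split_ifs with hs
  · rw [Finset.abs_prod]
    calc ∏ p ∈ n.primeFactors, |y p| ≤ ∏ p ∈ n.primeFactors, ((p : ℝ) ^ (-r)) :=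
          Finset.prod_le_prod (fun _ _ => abs_nonneg _) fun p hp => hy p (Nat.prime_of_mem_primeFactors hp)
      _ = (∏ p ∈ n.primeFactors, (p : ℝ)) ^ (-r) := by
          rw [Real.finsetProd_rpow]
          intro p _
          positivity
      _ = (n : ℝ) ^ (-r) := by
          congr 1
          have h := Nat.prod_primeFactors_of_squarefree hs
          calc ∏ p ∈ n.primeFactors, (p : ℝ) = ((∏ p ∈ n.primeFactors, p : ℕ) : ℝ) := by rw [Nat.cast_prod]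
            _ = (n : ℝ) := by rw [h]
  · rw [abs_zero]
    positivity

lemma rpow_small {δ ρ : ℝ} (h : ρ < δ) (hρ : 0 ≤ ρ) {Q : ℕ} (hQ : 1 ≤ Q) : ∃ R₀ : ℕ, ∀ R : ℕ, R₀ ≤ R → ∀ n : ℕ, 2 ≤ n →
    (n : ℝ) ≤ 2 * (R : ℝ) ^ (2 * Q) → ((R : ℝ) ^ (2 * Q)) ^ (-δ) ≤ 1 / 2 * (n : ℝ) ^ (-ρ) / (Real.log n) ^ 2 := by
  have hδ : 0 < δ := by linarith
  have h2 : (0:ℝ) < 2 ^ δ := by positivity
  have h1 := (isLittleO_log_rpow_rpow_atTop 2 (by linarith : 0 < δ - ρ)).bound (show 0 < 1 / (2 * 2 ^ δ) by positivity)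
  obtain ⟨z₀, hz₀⟩ := Filter.eventually_atTop.1 h1
  obtain ⟨R₀, hR₀⟩ := exists_nat_ge (max z₀ 1)
  refine ⟨R₀, fun R hR n hn2 hn => ?_⟩
  have hR1 : max z₀ 1 ≤ (R : ℝ) := hR₀.trans (by exact_mod_cast hR)
  have hR2 : (1:ℝ) ≤ R := (le_max_right _ _).trans hR1
  have hRR : (R : ℝ) ≤ (R : ℝ) ^ (2 * Q) := by
    calc (R : ℝ) = (R : ℝ) ^ 1 := (pow_one _).symm
      _ ≤ _ := pow_le_pow_right₀ hR2 (by omega)
  set T : ℝ := (R : ℝ) ^ (2 * Q) with hT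
  have hT1 : 1 ≤ T := hR2.trans hRR
  have hTp : 0 < T := by linarith
  have hz := hz₀ (2 * T) (by
    have := (le_max_left z₀ 1).trans hR1
    linarith)
  have hlz : 0 < Real.log (2 * T) := Real.log_pos (by linarith)
  have e1 : ‖Real.log (2 * T) ^ (2:ℝ)‖ = Real.log (2 * T) ^ 2 := by
    rw [Real.norm_eq_abs, abs_of_nonneg (by positivity)]
    exact Real.rpow_natCast _ 2
  have e2 : ‖(2 * T) ^ (δ - ρ)‖ = (2 * T) ^ (δ - ρ) := by
    rw [Real.norm_eq_abs, abs_of_nonneg (by positivity)]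
  rw [e1, e2] at hz
  have hnR : (2:ℝ) ≤ n := by exact_mod_cast hn2
  have hln : 0 < Real.log n := Real.log_pos (by linarith)
  have hle : Real.log n ≤ Real.log (2 * T) := Real.log_le_log (by linarith) hn
  have hnρ : (n : ℝ) ^ ρ ≤ (2 * T) ^ ρ := Real.rpow_le_rpow (by linarith) hn hρ
  have key : 2 * (Real.log n) ^ 2 * (n : ℝ) ^ ρ ≤ T ^ δ := by
    calc 2 * (Real.log n) ^ 2 * (n : ℝ) ^ ρ ≤ 2 * (Real.log (2 * T)) ^ 2 * (2 * T) ^ ρ := by
          gcongr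
      _ ≤ 2 * (1 / (2 * 2 ^ δ) * (2 * T) ^ (δ - ρ)) * (2 * T) ^ ρ := by gcongr
      _ = 1 / 2 ^ δ * ((2 * T) ^ (δ - ρ) * (2 * T) ^ ρ) := by field_simp
      _ = 1 / 2 ^ δ * (2 * T) ^ δ := by rw [← Real.rpow_add (by linarith)]; congr 2; ring
      _ = T ^ δ := by
          rw [Real.mul_rpow (by norm_num) hTp.le]
          field_simp
  rw [Real.rpow_neg hTp.le, Real.rpow_neg (by linarith : (0:ℝ) ≤ n)]
  have hnp : 0 < (n : ℝ) ^ ρ := by positivity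
  have hTδ : 0 < T ^ δ := by positivity
  rw [inv_eq_one_div, div_le_iff₀ hTδ]
  have e3 : 1 / 2 * ((n : ℝ) ^ ρ)⁻¹ / Real.log n ^ 2 * T ^ δ = T ^ δ / (2 * (Real.log n) ^ 2 * (n : ℝ) ^ ρ) := by
    field_simp
  rw [e3, le_div_iff₀ (by positivity), one_mul]
  exact key

/-- index of `n` -/
noncomputable def idx (T : ℕ → ℕ) (n : ℕ) : ℕ := sInf {k | n ≤ T k}

lemma idx_le {T : ℕ → ℕ} {n k : ℕ} (h : n ≤ T k) : idx T n ≤ k := Nat.sInf_le h

lemma le_idx {T : ℕ → ℕ} (hT : StrictMono T) (n : ℕ) : n ≤ T (idx T n) :=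
  Nat.sInf_mem (s := {k | n ≤ T k}) ⟨n, hT.le_apply⟩

lemma idx_mono {T : ℕ → ℕ} (hT : StrictMono T) : Monotone (idx T) := fun _ m h => idx_le (h.trans (le_idx hT m))

lemma idx_eq {T : ℕ → ℕ} (hT : StrictMono T) {n k : ℕ} (h1 : T k < n) (h2 : n ≤ T (k + 1)) : idx T n = k + 1 := by
  apply le_antisymm (idx_le h2)
  by_contra h
  push Not at h
  have h3 := hT.monotone (Nat.lt_succ_iff.1 h)
  have h4 := le_idx hT n
  omega

/-- the exponents -/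
noncomputable def rk (k : ℕ) : ℝ := 1 / 32 + 1 / (32 * ((k : ℝ) + 1))

lemma rk_anti : Antitone rk := by
  intro k l h
  unfold rk
  gcongr

lemma rk_lt (k : ℕ) : rk (k + 1) < rk k := by
  unfold rk
  have h : (0:ℝ) < (k : ℝ) + 1 := by positivity
  have : 1 / (32 * (((k + 1 : ℕ) : ℝ) + 1)) < 1 / (32 * ((k : ℝ) + 1)) := by
    apply one_div_lt_one_div_of_lt (by positivity)
    push_cast
    linarith
  linarith

lemma rk_bd (k : ℕ) : 1 / 32 ≤ rk k ∧ rk k ≤ 1 / 16 := by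
  unfold rk
  have h : (0:ℝ) < (k : ℝ) + 1 := by positivity
  constructor
  · have : 0 ≤ 1 / (32 * ((k : ℝ) + 1)) := by positivity
    linarith
  · have : 1 / (32 * ((k : ℝ) + 1)) ≤ 1 / 32 := by
      apply one_div_le_one_div_of_le (by norm_num)
      have : (0:ℝ) ≤ k := by positivity
      linarith
    linarith

/-- `δ_k` -/
noncomputable def dk (k : ℕ) : ℝ := (rk k + rk (k + 1)) / 2

lemma dk_lt (k : ℕ) : dk k < rk k := by have := rk_lt k; unfold dk; linarith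
lemma lt_dk (k : ℕ) : rk (k + 1) < dk k := by have := rk_lt k; unfold dk; linarith
lemma dk_pos (k : ℕ) : 0 ≤ dk k := by have := rk_bd k; have := rk_bd (k + 1); unfold dk; linarith [this.1]

/-- the windows -/
def Pw (Q : ℕ) (R : ℕ → ℕ) (k j : ℕ) : Prop := R k ≤ j ∧ (j + 1) ^ (2 * Q) ≤ 2 * R k ^ (2 * Q)

lemma Pw_unique {Q : ℕ} {R : ℕ → ℕ} (hR : ∀ k, 2 * R k + 1 ≤ R (k + 1)) (hQ : 1 ≤ Q) {k k' j : ℕ}
    (h : Pw Q R k j) (h' : Pw Q R k' j) : k = k' := by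
  have hmono : StrictMono R := strictMono_nat_of_lt_succ fun k => by have := hR k; omega
  have key : ∀ a b, a < b → Pw Q R a j → Pw Q R b j → False := by
    intro a b hab ha hb
    have h1 : R (a + 1) ≤ R b := hmono.monotone hab
    have h2 : 2 * R a + 1 ≤ j := ((hR a).trans h1).trans hb.1
    have h3 := ha.2
    have h4 : (2 * R a) ^ (2 * Q) < (j + 1) ^ (2 * Q) := Nat.pow_lt_pow_left (by omega) (by omega)
    have h5 : 2 * R a ^ (2 * Q) ≤ (2 * R a) ^ (2 * Q) := by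
      rw [mul_pow]
      apply Nat.mul_le_mul_right
      exact Nat.le_self_pow (by omega) 2
    omega
  rcases Nat.lt_trichotomy k k' with hlt | heq | hgt
  · exact (key k k' hlt h h').elim
  · exact heq
  · exact (key k' k hgt h' h).elim

open Classical in
/-- the forcing -/
noncomputable def sF (Q : ℕ) (R : ℕ → ℕ) (σ : ℕ → ℕ → ℕ → ℝ) (n : ℕ) : ℝ :=
  if h : ∃ q : ℕ × ℕ, Pw Q R q.1 q.2 ∧ n ∈ CC Q q.2 then
    ((R h.choose.1 : ℝ) ^ (2 * Q)) ^ (-dk h.choose.1) * σ h.choose.1 h.choose.2 n else 0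

lemma sF_eq {Q : ℕ} {R : ℕ → ℕ} (hR : ∀ k, 2 * R k + 1 ≤ R (k + 1)) (hQ : 1 ≤ Q) (σ : ℕ → ℕ → ℕ → ℝ) {k j n : ℕ}
    (h : Pw Q R k j) (hn : n ∈ CC Q j) : sF Q R σ n = ((R k : ℝ) ^ (2 * Q)) ^ (-dk k) * σ k j n := by
  have hex : ∃ q : ℕ × ℕ, Pw Q R q.1 q.2 ∧ n ∈ CC Q q.2 := ⟨(k, j), h, hn⟩
  unfold sF
  rw [dif_pos hex]
  have h1 := hex.choose_spec
  have h2 : hex.choose.2 = j := CC_unique h1.2 hn
  have h3 : hex.choose.1 = k := Pw_unique hR hQ (h2 ▸ h1.1) h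
  rw [h2, h3]

lemma sF_zero {Q : ℕ} {R : ℕ → ℕ} (σ : ℕ → ℕ → ℕ → ℝ) {n : ℕ}
    (h : ∀ k j, Pw Q R k j → n ∉ CC Q j) : sF Q R σ n = 0 := by
  unfold sF
  rw [dif_neg]
  rintro ⟨q, hq1, hq2⟩
  exact h _ _ hq1 hq2

/-- the sign argument -/
lemma sign_arg {S A B e₁ e₂ : ℝ} (h1 : |A - S| ≤ e₁) (h2 : |B - A| ≤ e₂) (h : e₁ + e₂ < |S|) : 0 < B * A := by
  have he1 : 0 ≤ e₁ := (abs_nonneg _).trans h1
  have he2 : 0 ≤ e₂ := (abs_nonneg _).trans h2
  rw [abs_le] at h1 h2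
  rcases le_or_gt 0 S with hS | hS
  · rw [abs_of_nonneg hS] at h
    exact mul_pos (by linarith) (by linarith)
  · rw [abs_of_neg hS] at h
    exact mul_pos_of_neg_of_neg (by linarith) (by linarith)

/-- decomposition of the summatory function in a cell -/
lemma AS_cell {Q : ℕ} (a : ℕ → ℝ) {J : ℕ} {x : ℝ} (h1 : (J : ℝ) ^ (2 * Q) ≤ x) (h2 : x ≤ ((J : ℝ) + 1) ^ (2 * Q)) :
    AS a x = ∑ n ∈ Icc 1 (J ^ (2 * Q)), a n + ∑ n ∈ (CC Q J).filter (fun n : ℕ => (n : ℝ) ≤ x), a n := by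
  have hx0 : 0 ≤ x := le_trans (by positivity) h1
  show ∑ n ∈ Icc 1 ⌊x⌋₊, a n = _
  have e : Icc 1 ⌊x⌋₊ = Icc 1 (J ^ (2 * Q)) ∪ (CC Q J).filter (fun n : ℕ => (n : ℝ) ≤ x) := by
    ext n
    rw [Finset.mem_union, Finset.mem_filter, Finset.mem_Icc, Finset.mem_Icc, mem_CC, Nat.le_floor_iff hx0]
    constructor
    · rintro ⟨h3, h4⟩
      by_cases h5 : n ≤ J ^ (2 * Q)
      · exact Or.inl ⟨h3, h5⟩
      · right
        refine ⟨⟨by omega, ?_⟩, h4⟩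
        have : (n : ℝ) ≤ ((J : ℝ) + 1) ^ (2 * Q) := h4.trans h2
        exact_mod_cast this
    · rintro (⟨h3, h4⟩ | ⟨⟨h3, h4⟩, h5⟩)
      · refine ⟨h3, le_trans ?_ h1⟩
        exact_mod_cast h4
      · exact ⟨by omega, h5⟩
  rw [e, Finset.sum_union]
  rw [Finset.disjoint_left]
  intro n hn hn2
  rw [Finset.mem_Icc] at hn
  rw [Finset.mem_filter, mem_CC] at hn2
  omega

/-- splitting off the forcing -/
lemma cell_split {Q : ℕ} {s x : ℕ → ℝ} (hs : ∀ n, s n ≠ 0 → n.Prime) {J : ℕ} (z : ℝ) :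
    |∑ n ∈ (CC Q J).filter (fun n : ℕ => (n : ℝ) ≤ z), cf (fun p => s p + x p) n -
      ∑ n ∈ (CC Q J).filter (fun n : ℕ => (n : ℝ) ≤ z), s n| ≤
    ∑ n ∈ KC Q J, |cf (fun p => s p + x p) n| + ∑ p ∈ (CC Q J).filter Nat.Prime, |x p| := by
  classical
  set y : ℕ → ℝ := fun p => s p + x p with hy
  set t : ℕ → ℝ := fun n => if n.Prime then x n else cf y n with ht
  have h1 : ∀ n, cf y n - s n = t n := by
    intro n
    by_cases hp : n.Prime
    · rw [cf_prime y hp, ht]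
      simp only [if_pos hp, hy]
      ring
    · have h2 : s n = 0 := by
        by_contra h
        exact hp (hs n h)
      rw [ht, h2]
      simp only [if_neg hp, sub_zero]
  rw [← Finset.sum_sub_distrib]
  calc |∑ n ∈ (CC Q J).filter (fun n : ℕ => (n : ℝ) ≤ z), (cf y n - s n)|
      ≤ ∑ n ∈ (CC Q J).filter (fun n : ℕ => (n : ℝ) ≤ z), |cf y n - s n| := Finset.abs_sum_le_sum_abs _ _
    _ ≤ ∑ n ∈ CC Q J, |cf y n - s n| :=
        Finset.sum_le_sum_of_subset_of_nonneg (Finset.filter_subset _ _) fun _ _ _ => abs_nonneg _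
    _ = ∑ n ∈ CC Q J, |t n| := Finset.sum_congr rfl fun n _ => by rw [h1]
    _ = ∑ n ∈ (CC Q J).filter (fun n => ¬ n.Prime), |t n| + ∑ n ∈ (CC Q J).filter Nat.Prime, |t n| := by
        rw [add_comm]
        exact (Finset.sum_filter_add_sum_filter_not _ _ _).symm
    _ = _ := by
        congr 1
        · apply Finset.sum_congr rfl
          intro n hn
          rw [ht]
          simp only [if_neg (Finset.mem_filter.1 hn).2]
        · apply Finset.sum_congr rfl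
          intro n hn
          rw [ht]
          simp only [if_pos (Finset.mem_filter.1 hn).2]

end Pool.Agent.H394R3.ET
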