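import Pool.Agent.H394R3.ET.Stmts

/-! Task BOUND of project ET (helper497). -/

set_option autoImplicit false

open Finset

namespace Pool.Agent.H394R3.ET.Bound

open Pool.Agent.H96R3.BC (cf)

lemma cf_one (y : ℕ → ℝ) : cf y 1 = 1 := by
  unfold cf
  simp

lemma cf_small {y : ℕ → ℝ} {N : ℕ} (hy : ∀ p, p ≤ N → y p = 0) {n : ℕ} (h1 : 1 < n) (hn : n ≤ N) :
    cf y n = 0 := by
  unfold cf
  split
  · obtain ⟨p, hp, hpn⟩ := Nat.exists_prime_and_dvd (by omega : n ≠ 1)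
    apply Finset.prod_eq_zero (i := p)
    · rw [Nat.mem_primeFactors]
      exact ⟨hp, hpn, by omega⟩
    · exact hy p ((Nat.le_of_dvd (by omega) hpn).trans hn)
  · rfl

lemma cf_abs_le {y : ℕ → ℝ} {N : ℕ} {r : ℝ} 
    (hy : ∀ q : ℕ, q.Prime → q ≤ N → |y q| ≤ (q : ℝ) ^ (-r)) {n : ℕ} (h1 : 1 ≤ n) (hn : n ≤ N) :
    |cf y n| ≤ (n : ℝ) ^ (-r) := by
  unfold cf
  split
  · rename_i hs
    rw [Finset.abs_prod]
    have h2 : ∏ p ∈ n.primeFactors, |y p| ≤ ∏ p ∈ n.primeFactors, (p : ℝ) ^ (-r) := by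
      apply Finset.prod_le_prod (fun i _ => abs_nonneg _)
      intro p hp
      rw [Nat.mem_primeFactors] at hp
      exact hy p hp.1 ((Nat.le_of_dvd (by omega) hp.2.1).trans hn)
    refine h2.trans (le_of_eq ?_)
    rw [Real.finsetProd_rpow _ _ (fun i _ => by positivity)]
    congr 1
    have h3 := congrArg (fun k : ℕ => (k : ℝ)) (Nat.prod_primeFactors_of_squarefree hs)
    simp only [Nat.cast_prod] at h3
    exact h3
  · simp only [abs_zero]
    positivity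

lemma cell_card (Q J : ℕ) (hQ : 1 ≤ Q) (hJ : 1 ≤ J) :
    (((J + 1) ^ (2 * Q) : ℕ) : ℝ) - ((J ^ (2 * Q) : ℕ) : ℝ) ≤ (2 * Q) * 4 ^ Q * (J : ℝ) ^ (2 * (Q : ℝ) - 1) := by
  have hJr : (1 : ℝ) ≤ J := by exact_mod_cast hJ
  -- (J+1)^m - J^m ≤ m (J+1)^(m-1)
  have key : ∀ m : ℕ, ((J : ℝ) + 1) ^ m - (J : ℝ) ^ m ≤ m * ((J : ℝ) + 1) ^ (m - 1) := by
    intro m
    induction m with
    | zero => simp
    | succ m ih =>
      have e1 : ((J : ℝ) + 1) ^ (m + 1) - (J : ℝ) ^ (m + 1)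
          = ((J : ℝ) + 1) ^ m + J * (((J : ℝ) + 1) ^ m - (J : ℝ) ^ m) := by ring
      rw [e1, Nat.add_sub_cancel]
      rcases Nat.eq_zero_or_pos m with h0 | h0
      · subst h0; simp
      · have h2 : (J : ℝ) * (((J : ℝ) + 1) ^ m - (J : ℝ) ^ m) ≤ m * ((J : ℝ) + 1) ^ m := by
          calc (J : ℝ) * (((J : ℝ) + 1) ^ m - (J : ℝ) ^ m) ≤ J * (m * ((J : ℝ) + 1) ^ (m - 1)) :=
                mul_le_mul_of_nonneg_left ih (by linarith)
            _ ≤ (J + 1) * (m * ((J : ℝ) + 1) ^ (m - 1)) := by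
                apply mul_le_mul_of_nonneg_right (by linarith) (by positivity)
            _ = m * ((J : ℝ) + 1) ^ m := by
                obtain ⟨m', rfl⟩ : ∃ m', m = m' + 1 := ⟨m - 1, by omega⟩
                rw [Nat.add_sub_cancel]
                ring
        push_cast
        linarith
  have h1 := key (2 * Q)
  have h2 : ((J : ℝ) + 1) ^ (2 * Q - 1) ≤ 4 ^ Q * (J : ℝ) ^ (2 * Q - 1) := by
    calc ((J : ℝ) + 1) ^ (2 * Q - 1) ≤ (2 * (J : ℝ)) ^ (2 * Q - 1) :=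
          pow_le_pow_left₀ (by positivity) (by linarith) _
      _ = 2 ^ (2 * Q - 1) * (J : ℝ) ^ (2 * Q - 1) := by rw [mul_pow]
      _ ≤ 4 ^ Q * (J : ℝ) ^ (2 * Q - 1) := by
          apply mul_le_mul_of_nonneg_right _ (by positivity)
          calc (2 : ℝ) ^ (2 * Q - 1) ≤ 2 ^ (2 * Q) := pow_le_pow_right₀ (by norm_num) (by omega)
            _ = 4 ^ Q := by rw [pow_mul]; norm_num
  have h3 : (J : ℝ) ^ (2 * (Q : ℝ) - 1) = (J : ℝ) ^ (2 * Q - 1) := by
    rw [← Real.rpow_natCast]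
    congr 1
    rw [Nat.cast_sub (by omega)]
    push_cast
    ring
  rw [h3]
  push_cast
  push_cast at h1
  calc ((J : ℝ) + 1) ^ (2 * Q) - (J : ℝ) ^ (2 * Q) ≤ 2 * Q * ((J : ℝ) + 1) ^ (2 * Q - 1) := h1
    _ ≤ 2 * Q * (4 ^ Q * (J : ℝ) ^ (2 * Q - 1)) := by
        apply mul_le_mul_of_nonneg_left h2 (by positivity)
    _ = _ := by ring

theorem taskBound : TaskBound := by
  refine ⟨4, fun Q hQ j₀ hj₀ K₁ hK₁ => ⟨1 + K₁ + (2 * Q) * 4 ^ Q, by positivity, ?_⟩⟩
  intro y hy0 hcell R r hR hr0 hr1 hyb x hx1 hxR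
  have hQr : (4 : ℝ) ≤ Q := by exact_mod_cast hQ
  set E : ℝ := 1 - 1 / (2 * (Q : ℝ)) - r with hE
  have hE0 : 0 ≤ E := by
    have : 1 / (2 * (Q : ℝ)) ≤ 1 / 8 := by
      apply one_div_le_one_div_of_le (by norm_num)
      linarith
    rw [hE]
    linarith
  have hxE : 1 ≤ x ^ E := Real.one_le_rpow hx1 hE0
  have hx0 : 0 ≤ x := by linarith
  set M := ⌊x⌋₊ with hM
  have hMx : (M : ℝ) ≤ x := Nat.floor_le hx0
  have hM1 : 1 ≤ M := by
    rw [hM, Nat.one_le_floor_iff]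
    exact hx1
  have hMR : M ≤ R ^ (2 * Q) := by
    have : (M : ℝ) ≤ ((R ^ (2 * Q) : ℕ) : ℝ) := by
      push_cast
      exact hMx.trans hxR
    exact_mod_cast this
  have hAS : AS (cf y) x = ∑ n ∈ Icc 1 M, cf y n := rfl
  rw [hAS]
  have hKpos : 0 ≤ K₁ + (2 * Q) * 4 ^ Q := by positivity
  rcases Nat.lt_or_ge M (j₀ ^ (2 * Q)) with hlt | hge
  · have hsum : ∑ n ∈ Icc 1 M, cf y n = 1 := by
      rw [Finset.sum_eq_single 1]
      · exact cf_one y
      · intro n hn hn1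
        rw [Finset.mem_Icc] at hn
        exact cf_small hy0 (by omega) (by omega)
      · intro h
        exact absurd (Finset.mem_Icc.mpr ⟨le_rfl, hM1⟩) h
    rw [hsum, abs_one]
    nlinarith
  · -- the cell of `M`
    obtain ⟨J, hJ1, hJ2⟩ : ∃ J : ℕ, J ^ (2 * Q) ≤ M ∧ M < (J + 1) ^ (2 * Q) := by
      classical
      have hex : ∃ J : ℕ, M < (J + 1) ^ (2 * Q) := by
        refine ⟨M, ?_⟩
        calc M < M + 1 := Nat.lt_succ_self _
          _ = (M + 1) ^ 1 := (pow_one _).symm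
          _ ≤ (M + 1) ^ (2 * Q) := Nat.pow_le_pow_right (by omega) (by omega)
      refine ⟨Nat.find hex, ?_, Nat.find_spec hex⟩
      rcases Nat.eq_zero_or_pos (Nat.find hex) with h0 | h0
      · rw [h0, zero_pow (by omega)]
        omega
      · have := Nat.find_min hex (m := Nat.find hex - 1) (by omega)
        rw [Nat.sub_add_cancel h0] at this
        omega
    have hJj : j₀ ≤ J := by
      by_contra h
      push Not at h
      have : (J + 1) ^ (2 * Q) ≤ j₀ ^ (2 * Q) := Nat.pow_le_pow_left (by omega) _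
      omega
    have hJpos : 1 ≤ J := by omega
    have hJr : (1 : ℝ) ≤ J := by exact_mod_cast hJpos
    have hJ0 : (0 : ℝ) < J := by linarith
    have hsplit : ∑ n ∈ Icc 1 M, cf y n
        = ∑ n ∈ Icc 1 (J ^ (2 * Q)), cf y n + ∑ n ∈ Ioc (J ^ (2 * Q)) M, cf y n := by
      rw [← Finset.sum_union]
      · congr 1
        ext n
        simp only [Finset.mem_Icc, Finset.mem_union, Finset.mem_Ioc]
        constructor
        · intro h; omega
        · rintro (h | h) <;> omega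
      · rw [Finset.disjoint_left]
        intro n h1 h2
        rw [Finset.mem_Icc] at h1
        rw [Finset.mem_Ioc] at h2
        omega
    -- powers of `J` and `x`
    have hJxE : (J : ℝ) ^ (2 * (Q : ℝ) - 1 - 2 * Q * r) ≤ x ^ E := by
      have h1 : ((J : ℝ) ^ (2 * (Q : ℝ))) ^ E ≤ x ^ E := by
        apply Real.rpow_le_rpow (by positivity) _ hE0
        have h2 : (J : ℝ) ^ (2 * (Q : ℝ)) = ((J ^ (2 * Q) : ℕ) : ℝ) := by
          push_cast
          rw [← Real.rpow_natCast]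
          push_cast
          rfl
        rw [h2]
        have h3 : ((J ^ (2 * Q) : ℕ) : ℝ) ≤ M := by exact_mod_cast hJ1
        exact h3.trans hMx
      rw [← Real.rpow_mul hJ0.le] at h1
      have h4 : 2 * (Q : ℝ) * E = 2 * (Q : ℝ) - 1 - 2 * Q * r := by
        rw [hE]
        have : (Q : ℝ) ≠ 0 := by linarith
        field_simp
      rw [h4] at h1
      exact h1
    have hfirst : |∑ n ∈ Icc 1 (J ^ (2 * Q)), cf y n| ≤ K₁ * x ^ E := by
      refine (hcell J hJj).trans ?_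
      apply mul_le_mul_of_nonneg_left _ hK₁.le
      refine le_trans ?_ hJxE
      apply Real.rpow_le_rpow_of_exponent_le hJr
      nlinarith
    have hsecond : |∑ n ∈ Ioc (J ^ (2 * Q)) M, cf y n| ≤ (2 * Q) * 4 ^ Q * x ^ E := by
      have h1 : |∑ n ∈ Ioc (J ^ (2 * Q)) M, cf y n| ≤ ∑ n ∈ Ioc (J ^ (2 * Q)) M, (J : ℝ) ^ (-(2 * (Q : ℝ) * r)) := by
        refine (Finset.abs_sum_le_sum_abs _ _).trans ?_
        apply Finset.sum_le_sum
        intro n hn
        rw [Finset.mem_Ioc] at hn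
        have hn1 : 1 ≤ n := by omega
        refine (cf_abs_le hyb hn1 (hn.2.trans hMR)).trans ?_
        have h2 : (J : ℝ) ^ (-(2 * (Q : ℝ) * r)) = (((J ^ (2 * Q) : ℕ) : ℝ)) ^ (-r) := by
          push_cast
          rw [← Real.rpow_natCast, ← Real.rpow_mul hJ0.le]
          congr 1
          push_cast
          ring
        rw [h2]
        apply Real.rpow_le_rpow_of_nonpos
        · have : 0 < J ^ (2 * Q) := by positivity
          exact_mod_cast this
        · exact_mod_cast hn.1.le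
        · linarith
      refine h1.trans ?_
      rw [Finset.sum_const, Nat.card_Ioc, nsmul_eq_mul]
      have h3 : (((M - J ^ (2 * Q) : ℕ)) : ℝ) ≤ (2 * Q) * 4 ^ Q * (J : ℝ) ^ (2 * (Q : ℝ) - 1) := by
        refine le_trans ?_ (cell_card Q J (by omega) hJpos)
        rw [Nat.cast_sub hJ1]
        have : (M : ℝ) ≤ (((J + 1) ^ (2 * Q) : ℕ) : ℝ) := by exact_mod_cast hJ2.le
        linarith
      calc (((M - J ^ (2 * Q) : ℕ)) : ℝ) * (J : ℝ) ^ (-(2 * (Q : ℝ) * r))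
          ≤ ((2 * Q) * 4 ^ Q * (J : ℝ) ^ (2 * (Q : ℝ) - 1)) * (J : ℝ) ^ (-(2 * (Q : ℝ) * r)) :=
            mul_le_mul_of_nonneg_right h3 (by positivity)
        _ = (2 * Q) * 4 ^ Q * (J : ℝ) ^ (2 * (Q : ℝ) - 1 - 2 * Q * r) := by
            rw [mul_assoc, ← Real.rpow_add hJ0]
            congr 2
        _ ≤ _ := mul_le_mul_of_nonneg_left hJxE (by positivity)
    rw [hsplit]
    refine (abs_add_le _ _).trans ?_
    have : (1 + K₁ + (2 * Q) * 4 ^ Q) * x ^ E = x ^ E + (K₁ * x ^ E + (2 * Q) * 4 ^ Q * x ^ E) := by ring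
    rw [this]
    linarith

end Pool.Agent.H394R3.ET.Bound
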