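import Pool.Agent.H394R3.ET.Stmts
import Pool.Agent.H96R3.BC.Lag_helper568

/-! TASK FOR (helper568): a forcing in one cell. -/

set_option autoImplicit false

open Finset Filter

namespace Pool.Agent.H394R3.ET.For568

open Pool.Agent.H96R3.BC (vv UU CC)
open Pool.Agent.H96R3.BC.Lag568
open Pool.Agent.H469R10.HO (Hoheisel)

/-- divided differences kill polynomials of small degree -/
lemma divdiff {m : ℕ} (u : Fin (m + 1) → ℝ) (hu : Function.Injective u) (P : Polynomial ℝ)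
    (hP : P.natDegree < m) : ∑ l, (∏ r ∈ univ.erase l, (u l - u r)⁻¹) * P.eval (u l) = 0 := by
  have hdeg : P.degree < ((#(univ : Finset (Fin (m + 1))) : ℕ) : WithBot ℕ) := by
    rw [card_univ, Fintype.card_fin]
    calc P.degree ≤ (P.natDegree : WithBot ℕ) := Polynomial.degree_le_natDegree
      _ < ((m + 1 : ℕ) : WithBot ℕ) := by exact_mod_cast (by omega : P.natDegree < m + 1)
  have h := Lagrange.coeff_eq_sum (s := (univ : Finset (Fin (m + 1)))) (v := u) hu.injOn hdeg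
  rw [card_univ, Fintype.card_fin] at h
  have h0 : P.coeff (m + 1 - 1) = 0 := Polynomial.coeff_eq_zero_of_natDegree_lt (by omega)
  rw [h0] at h
  rw [h]
  apply sum_congr rfl
  intro l _
  rw [prod_inv_distrib]
  ring

/-- a finitely supported function with prescribed values at an injective family -/
noncomputable def sg {I : Type} [Fintype I] (P : I → ℕ) (g : I → ℝ) (n : ℕ) : ℝ :=
  ∑ i, if P i = n then g i else 0

lemma sg_ne {I : Type} [Fintype I] {P : I → ℕ} {g : I → ℝ} {n : ℕ} (h : sg P g n ≠ 0) : ∃ i, P i = n := by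
  by_contra hcon
  push Not at hcon
  apply h
  unfold sg
  apply sum_eq_zero
  intro i _
  rw [if_neg (hcon i)]

lemma sg_val {I : Type} [Fintype I] {P : I → ℕ} (hP : Function.Injective P) (g : I → ℝ) (i : I) :
    sg P g (P i) = g i := by
  classical
  unfold sg
  rw [sum_eq_single i]
  · rw [if_pos rfl]
  · intro k _ hk
    rw [if_neg (fun h => hk (hP h))]
  · intro h; exact absurd (mem_univ i) h

lemma sg_sum {I : Type} [Fintype I] (P : I → ℕ) (g : I → ℝ) (S : Finset ℕ) (F : ℕ → ℝ) :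
    ∑ n ∈ S, sg P g n * F n = ∑ i, if P i ∈ S then g i * F (P i) else 0 := by
  unfold sg
  simp only [sum_mul]
  rw [sum_comm]
  apply sum_congr rfl
  intro i _
  simp only [ite_mul, zero_mul]
  rw [sum_ite_eq]

lemma prod_inv_bound {m : ℕ} (u : Fin (m + 1) → ℝ) {s : ℝ} (hs : 0 < s) (l : Fin (m + 1))
    (h : ∀ r, r ≠ l → s ≤ |u l - u r|) : |∏ r ∈ univ.erase l, (u l - u r)⁻¹| ≤ (s⁻¹) ^ m := by
  rw [abs_prod]
  have hc : #((univ : Finset (Fin (m + 1))).erase l) = m := by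
    rw [card_erase_of_mem (mem_univ l), card_univ, Fintype.card_fin]; rfl
  calc ∏ r ∈ univ.erase l, |(u l - u r)⁻¹| ≤ ∏ r ∈ (univ : Finset (Fin (m + 1))).erase l, s⁻¹ := by
        apply Finset.prod_le_prod
        · intro i _; exact abs_nonneg _
        · intro i hi
          rw [abs_inv]
          apply inv_anti₀ hs
          exact h i (ne_of_mem_erase hi)
    _ = (s⁻¹) ^ m := by rw [prod_const, hc]

lemma prod_inv_lower {m : ℕ} (hm : Even m) (u : Fin (m + 1) → ℝ) {h : ℝ}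
    (hu : ∀ r, r ≠ 0 → 0 < u r - u 0 ∧ u r - u 0 ≤ h) :
    (h⁻¹) ^ m ≤ ∏ r ∈ univ.erase 0, (u 0 - u r)⁻¹ := by
  have hc : #((univ : Finset (Fin (m + 1))).erase 0) = m := by
    rw [card_erase_of_mem (mem_univ 0), card_univ, Fintype.card_fin]; rfl
  have e : ∏ r ∈ univ.erase 0, (u 0 - u r)⁻¹ = ∏ r ∈ univ.erase 0, (u r - u 0)⁻¹ := by
    have : ∀ r ∈ (univ : Finset (Fin (m + 1))).erase 0, (u 0 - u r)⁻¹ = (-1) * (u r - u 0)⁻¹ := by
      intro r _
      rw [← neg_sub (u r) (u 0), inv_neg]; ring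
    rw [prod_congr rfl this, prod_mul_distrib, prod_const, hc, hm.neg_one_pow, one_mul]
  rw [e]
  calc (h⁻¹) ^ m = ∏ r ∈ (univ : Finset (Fin (m + 1))).erase 0, h⁻¹ := by rw [prod_const, hc]
    _ ≤ ∏ r ∈ univ.erase 0, (u r - u 0)⁻¹ := by
        apply Finset.prod_le_prod
        · intro i hi
          have h1 := hu i (ne_of_mem_erase hi)
          have : 0 < h := lt_of_lt_of_le h1.1 h1.2
          positivity
        · intro i hi
          have h1 := hu i (ne_of_mem_erase hi)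
          exact inv_anti₀ h1.1 h1.2


/-- primes in short intervals inside the cell `j` -/
lemma count {δ η : ℝ} (hδ : 0 < δ) (hδ1 : δ < 1) (hη : 0 < η) {X₀ : ℕ}
    (hH : ∀ X Y : ℕ, X₀ ≤ X → (X : ℝ) ^ (1 - δ) ≤ Y → Y ≤ X →
      η * Y / Real.log X ≤ (((Ioc X (X + Y)).filter Nat.Prime).card : ℝ))
    {Q : ℕ} (hQ : 1 ≤ Q) (hQδ : 1 ≤ Q * δ) {j X Y : ℕ} (hj : 2 ≤ j) (hjX : X₀ ≤ j)
    (h2 : (j + 1) ^ (2 * Q) ≤ 2 * j ^ (2 * Q)) (hX : j ^ (2 * Q) ≤ X) (hXY : X + Y ≤ (j + 1) ^ (2 * Q))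
    (hY : 2 * (j : ℝ) ^ (2 * Q - 2) ≤ Y) :
    η * Y / (4 * Q * Real.log j) ≤ (((Ioc X (X + Y)).filter Nat.Prime).card : ℝ) := by
  have hj' : (2:ℝ) ≤ j := by exact_mod_cast hj
  have hj0 : (0:ℝ) < j := by linarith
  have hQ' : (0:ℝ) < Q := by exact_mod_cast hQ
  have hjpow : j ≤ j ^ (2 * Q) := Nat.le_self_pow (by omega) j
  have haj : j ≤ X := hjpow.trans hX
  have hlog_a : Real.log X ≤ 4 * Q * Real.log j := by
    have h5 : X ≤ j ^ (4 * Q) := by
      calc X ≤ 2 * j ^ (2 * Q) := by omega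
        _ ≤ j * j ^ (2 * Q) := Nat.mul_le_mul_right _ hj
        _ = j ^ (2 * Q + 1) := by rw [pow_succ]; ring
        _ ≤ j ^ (4 * Q) := Nat.pow_le_pow_right (by omega) (by omega)
    have h6 : Real.log X ≤ Real.log ((j : ℝ) ^ (4 * Q)) := by
      apply Real.log_le_log
      · have : 0 < X := by omega
        exact_mod_cast this
      · exact_mod_cast h5
    rw [Real.log_pow] at h6
    push_cast at h6
    linarith
  have hlog_a0 : 0 < Real.log X := by
    apply Real.log_pos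
    have : 1 < X := by omega
    exact_mod_cast this
  have hle : (X : ℝ) ^ (1 - δ) ≤ Y := by
    have h5 : (X : ℝ) ≤ 2 * (j : ℝ) ^ (2 * Q) := by
      have : X ≤ 2 * j ^ (2 * Q) := by omega
      exact_mod_cast this
    have h6 : (X : ℝ) ^ (1 - δ) ≤ (2 * (j : ℝ) ^ (2 * Q)) ^ (1 - δ) :=
      Real.rpow_le_rpow (by positivity) h5 (by linarith)
    rw [Real.mul_rpow (by norm_num) (by positivity)] at h6
    have h7 : (2:ℝ) ^ (1 - δ) ≤ 2 := by
      calc (2:ℝ) ^ (1 - δ) ≤ (2:ℝ) ^ (1:ℝ) := Real.rpow_le_rpow_of_exponent_le (by norm_num) (by linarith)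
        _ = 2 := Real.rpow_one 2
    have h8 : ((j : ℝ) ^ (2 * Q)) ^ (1 - δ) ≤ (j : ℝ) ^ (2 * Q - 2) := by
      rw [← Real.rpow_natCast, ← Real.rpow_mul hj0.le, ← Real.rpow_natCast]
      apply Real.rpow_le_rpow_of_exponent_le (by linarith)
      rw [Nat.cast_sub (by omega)]
      push_cast
      nlinarith
    calc (X : ℝ) ^ (1 - δ) ≤ (2:ℝ) ^ (1 - δ) * ((j : ℝ) ^ (2 * Q)) ^ (1 - δ) := h6
      _ ≤ 2 * (j : ℝ) ^ (2 * Q - 2) := mul_le_mul h7 h8 (by positivity) (by norm_num)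
      _ ≤ Y := hY
  have hprimes := hH X Y (hjX.trans haj) hle (by omega)
  refine le_trans ?_ hprimes
  apply div_le_div_of_nonneg_left (by positivity) hlog_a0 hlog_a

/-- the position of the groups -/
def Xf (a b Y : ℕ) (l : ℕ) : ℕ := if l = 0 then a else b - 2 * l * Y

lemma UU_sq {j₀ j : ℕ} : UU j₀ j ^ 2 = (j : ℝ) / j₀ := by
  unfold UU
  rw [Real.sq_sqrt (by positivity)]

lemma cell {δ η : ℝ} (hδ : 0 < δ) (hδ1 : δ < 1) (hη : 0 < η) {X₀ : ℕ}
    (hH : ∀ X Y : ℕ, X₀ ≤ X → (X : ℝ) ^ (1 - δ) ≤ Y → Y ≤ X →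
      η * Y / Real.log X ≤ (((Ioc X (X + Y)).filter Nat.Prime).card : ℝ))
    {Q : ℕ} (hQ : 1 ≤ Q) (hQδ : 1 ≤ Q * δ) {j₀ : ℕ} (hj₀ : 1 ≤ j₀) {ε : ℝ} (hε : 0 < ε) (hε1 : ε < 1 / 4)
    {j : ℕ} (hj : 2 ≤ j) (hjX : X₀ ≤ j)
    (h2 : (j + 1) ^ (2 * Q) ≤ 2 * j ^ (2 * Q)) {m : ℕ} (hm : m = 4 * Q + 4) (h3 : 8 * (m + 1) / ε ≤ j)
    (h4 : 1 ≤ η * (ε * j / (4 * (m + 1))) / (4 * Q * Real.log j)) :
    ∃ σ : ℕ → ℝ,
    (∀ n, σ n ≠ 0 → n.Prime ∧ n ∈ CC Q j) ∧ (∀ n, |σ n| ≤ 1) ∧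
    (∀ P : Polynomial ℝ, P.natDegree < 4 * Q + 4 →
      ∑ p ∈ CC Q j, σ p * (vv Q j₀ p) ^ 2 * P.eval (vv Q j₀ p) = 0) ∧
    ∀ x : ℝ, (j : ℝ) ^ (2 * Q) + ε * (CC Q j).card ≤ x → x ≤ ((j : ℝ) + 1) ^ (2 * Q) - ε * (CC Q j).card →
      ((ε / (8 * (m + 1))) ^ m / 2 * (1 / 2) * η * (ε / (4 * (m + 1))) / (4 * Q)) *
        (CC Q j).card / Real.log j ≤ |∑ n ∈ (CC Q j).filter (fun n : ℕ => (n : ℝ) ≤ x), σ n| := by
  have hj' : (2:ℝ) ≤ j := by exact_mod_cast hj
  have hj0 : (0:ℝ) < j := by linarith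
  have hlog : 0 < Real.log j := Real.log_pos (by linarith)
  have hQ' : (0:ℝ) < Q := by exact_mod_cast hQ
  have hj₀' : (0:ℝ) < j₀ := by exact_mod_cast hj₀
  have hM : (0:ℝ) < (m:ℝ) + 1 := by positivity
  obtain ⟨a, ha⟩ : ∃ a, a = j ^ (2 * Q) := ⟨_, rfl⟩
  obtain ⟨b, hb⟩ : ∃ b, b = (j + 1) ^ (2 * Q) := ⟨_, rfl⟩
  have hab : a ≤ b := by rw [ha, hb]; exact Nat.pow_le_pow_left (by omega) _
  obtain ⟨L, hL⟩ : ∃ L, L = b - a := ⟨_, rfl⟩
  have hcard : (CC Q j).card = L := by unfold CC; rw [Nat.card_Ioc, hL, ha, hb]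
  have hCC : ∀ n, n ∈ CC Q j ↔ a < n ∧ n ≤ b := by
    intro n; unfold CC; rw [mem_Ioc, ha, hb]
  have hLj : j ^ (2 * Q - 1) ≤ L := by
    have e1 : 2 * Q = (2 * Q - 1) + 1 := by omega
    have e2 : (j + 1) ^ (2 * Q) = (j + 1) ^ (2 * Q - 1) * (j + 1) := by
      conv_lhs => rw [e1]
      rw [pow_succ]
    have e3 : j ^ (2 * Q) = j ^ (2 * Q - 1) * j := by
      conv_lhs => rw [e1]
      rw [pow_succ]
    have e4 : j ^ (2 * Q - 1) * (j + 1) ≤ (j + 1) ^ (2 * Q - 1) * (j + 1) :=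
      Nat.mul_le_mul_right _ (Nat.pow_le_pow_left (by omega) _)
    have e5 : j ^ (2 * Q - 1) * (j + 1) = j ^ (2 * Q - 1) * j + j ^ (2 * Q - 1) := by ring
    omega
  have hLj' : (j : ℝ) ^ (2 * Q - 1) ≤ L := by exact_mod_cast hLj
  have hpow : (j : ℝ) ^ (2 * Q - 1) = (j : ℝ) ^ (2 * Q - 2) * j := by
    have : 2 * Q - 1 = (2 * Q - 2) + 1 := by omega
    rw [this, pow_succ]
  have hp1 : (1:ℝ) ≤ (j : ℝ) ^ (2 * Q - 2) := one_le_pow₀ (by linarith)
  have hjL : (j : ℝ) ≤ L := by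
    rw [hpow] at hLj'; nlinarith
  have h3' : 8 * ((m:ℝ) + 1) ≤ ε * j := by
    rw [div_le_iff₀ hε] at h3; linarith
  have hL0 : (0:ℝ) < L := by linarith
  obtain ⟨Y, hY⟩ : ∃ Y, Y = ⌊ε * L / (2 * (m + 1))⌋₊ := ⟨_, rfl⟩
  have hYup : (Y : ℝ) ≤ ε * L / (2 * (m + 1)) := by rw [hY]; exact Nat.floor_le (by positivity)
  have hYup' : 2 * ((m:ℝ) + 1) * Y ≤ ε * L := by
    rw [le_div_iff₀ (by positivity)] at hYup; linarith
  have hYlow : ε * L / (4 * (m + 1)) ≤ Y := by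
    have h5 : ε * L / (2 * (m + 1)) < Y + 1 := by rw [hY]; exact Nat.lt_floor_add_one _
    have h6 : 1 ≤ ε * L / (4 * (m + 1)) := by
      rw [le_div_iff₀ (by positivity)]
      nlinarith
    have h7 : ε * L / (2 * (m + 1)) = 2 * (ε * L / (4 * (m + 1))) := by field_simp; ring
    linarith
  have hY2 : 2 * (j : ℝ) ^ (2 * Q - 2) ≤ Y := by
    refine le_trans ?_ hYlow
    rw [le_div_iff₀ (by positivity)]
    rw [hpow] at hLj'
    have h5 : ε * ((j : ℝ) ^ (2 * Q - 2) * j) ≤ ε * L := mul_le_mul_of_nonneg_left hLj' hε.le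
    have h6 : (j : ℝ) ^ (2 * Q - 2) * (8 * ((m:ℝ) + 1)) ≤ (j : ℝ) ^ (2 * Q - 2) * (ε * j) :=
      mul_le_mul_of_nonneg_left h3' (by positivity)
    linarith
  have hYpos' : (0:ℝ) < Y := by
    have : (0:ℝ) < 2 * (j : ℝ) ^ (2 * Q - 2) := by positivity
    linarith
  have hYpos : 1 ≤ Y := by exact_mod_cast hYpos'
  have hYL : 2 * m * Y + 2 * Y ≤ L := by
    have h5 : ((2 * m * Y + 2 * Y : ℕ) : ℝ) ≤ L := by
      push_cast
      have : ε * L ≤ 1 * L := mul_le_mul_of_nonneg_right (by linarith) hL0.le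
      linarith
    exact_mod_cast h5
  -- more precise inequality for the separation of group 0 and the other groups
  have hYL2 : 2 * m * Y + 2 * Y + 2 * Y ≤ L := by
    have h5 : ((2 * m * Y + 2 * Y + 2 * Y : ℕ) : ℝ) ≤ L := by
      push_cast
      have h6 : ε * L ≤ 1 / 4 * L := mul_le_mul_of_nonneg_right (by linarith) hL0.le
      have h7 : (0:ℝ) ≤ (m:ℝ) * Y := by positivity
      linarith
    exact_mod_cast h5
  let S : Fin (m + 1) → Finset ℕ := fun l => (Ioc (Xf a b Y l) (Xf a b Y l + Y)).filter Nat.Prime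
  obtain ⟨N, hN⟩ : ∃ N, N = ⌊η * Y / (4 * Q * Real.log j)⌋₊ := ⟨_, rfl⟩
  have hXf0 : ∀ l : Fin (m + 1), l ≠ 0 → Xf a b Y l = b - 2 * l * Y ∧ 2 * (l : ℕ) * Y ≤ 2 * m * Y ∧ 1 ≤ (l:ℕ) := by
    intro l hl
    have hl0 : (l : ℕ) ≠ 0 := fun h => hl (Fin.ext h)
    refine ⟨by unfold Xf; rw [if_neg hl0], ?_, by omega⟩
    have : (l : ℕ) ≤ m := by have := l.2; omega
    nlinarith
  have hXr : ∀ l : Fin (m + 1), a ≤ Xf a b Y l ∧ Xf a b Y l + Y ≤ b := by
    intro l
    by_cases hl : l = 0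
    · subst hl
      unfold Xf
      simp only [Fin.val_zero, if_true]
      constructor
      · exact le_rfl
      · omega
    · obtain ⟨e1, e2, e3⟩ := hXf0 l hl
      rw [e1]
      have : 2 * Y ≤ 2 * (l : ℕ) * Y := by nlinarith
      constructor <;> omega
  have hNc : ∀ l, N ≤ (S l).card := by
    intro l
    rw [hN]
    apply Nat.floor_le_of_le
    exact count hδ hδ1 hη hH hQ hQδ hj hjX h2 (by rw [← ha]; exact (hXr l).1) (by rw [← hb]; exact (hXr l).2) hY2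
  let pp : Fin (m + 1) × Fin N → ℕ := fun i => (S i.1).orderEmbOfCardLe (hNc i.1) i.2
  have hmem : ∀ i, pp i ∈ S i.1 := fun i => orderEmbOfCardLe_mem (S i.1) (hNc i.1) i.2
  have hmem' : ∀ i, Xf a b Y i.1 < pp i ∧ pp i ≤ Xf a b Y i.1 + Y ∧ (pp i).Prime := by
    intro i
    have := hmem i
    simp only [S] at this
    rw [mem_filter, mem_Ioc] at this
    exact ⟨this.1.1, this.1.2, this.2⟩
  have hppCC : ∀ i, pp i ∈ CC Q j := by
    intro i
    rw [hCC]
    have h5 := hmem' i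
    have h6 := hXr i.1
    omega
  have hsepN : ∀ i k, i.1 < k.1 → pp i + Y ≤ pp k ∨ pp k + Y ≤ pp i := by
    intro i k hik
    have h5 := hmem' i
    have h6 := hmem' k
    have hk0 : k.1 ≠ 0 := fun h => by rw [h] at hik; exact absurd hik (Fin.not_lt_zero _)
    obtain ⟨e1, e2, e3⟩ := hXf0 k.1 hk0
    by_cases hi0 : i.1 = 0
    · left
      have e4 : Xf a b Y (i.1 : ℕ) = a := by rw [hi0]; unfold Xf; simp
      rw [e1] at h6
      rw [e4] at h5
      omega
    · right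
      obtain ⟨f1, f2, f3⟩ := hXf0 i.1 hi0
      rw [e1] at h6
      rw [f1] at h5
      have h7 : (i.1 : ℕ) + 1 ≤ (k.1 : ℕ) := hik
      have h8 : 2 * (i.1 : ℕ) * Y + 2 * Y ≤ 2 * (k.1 : ℕ) * Y := by nlinarith
      omega
  have hinj : Function.Injective pp := by
    intro i k hik
    have h5 : i.1 = k.1 := by
      rcases lt_trichotomy i.1 k.1 with h | h | h
      · rcases hsepN i k h with h' | h' <;> omega
      · exact h
      · rcases hsepN k i h with h' | h' <;> omega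
    obtain ⟨i1, i2⟩ := i
    obtain ⟨k1, k2⟩ := k
    simp only at h5
    subst h5
    simp only [pp] at hik
    have := (orderEmbOfCardLe (S i1) (hNc i1)).injective hik
    rw [this]
  obtain ⟨h, hh⟩ : ∃ h, h = UU j₀ (j + 1) - UU j₀ j := ⟨_, rfl⟩
  have hh0 : 0 < h := by rw [hh]; have := UU_lt (j := j) hj₀; linarith
  have hUU0 : 0 < UU j₀ j := by unfold UU; positivity
  let u : Fin (m + 1) × Fin N → ℝ := fun i => vv Q j₀ (pp i)
  have hu1 : ∀ i, UU j₀ j ≤ u i ∧ u i ≤ UU j₀ (j + 1) := by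
    intro i
    have h5 := (hCC (pp i)).1 (hppCC i)
    rw [UU_vv j hQ, UU_vv (j + 1) hQ]
    constructor
    · exact vv_mono (by rw [← ha]; exact h5.1.le)
    · exact vv_mono (by rw [← hb]; exact h5.2)
  have hu0 : ∀ i, 0 < u i := fun i => lt_of_lt_of_le hUU0 (hu1 i).1
  have husq : ∀ i, UU j₀ j ^ 2 ≤ u i ^ 2 ∧ u i ^ 2 ≤ 2 * UU j₀ j ^ 2 := by
    intro i
    constructor
    · exact pow_le_pow_left₀ hUU0.le (hu1 i).1 2
    · calc u i ^ 2 ≤ UU j₀ (j + 1) ^ 2 := pow_le_pow_left₀ (hu0 i).le (hu1 i).2 2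
        _ ≤ 2 * UU j₀ j ^ 2 := by
          rw [UU_sq, UU_sq, ← mul_div_assoc]
          apply div_le_div_of_nonneg_right _ hj₀'.le
          push_cast; linarith
  obtain ⟨s, hs⟩ : ∃ s, s = h * (ε / (8 * (m + 1))) := ⟨_, rfl⟩
  have hs0 : 0 < s := by rw [hs]; positivity
  have hLr : (L : ℝ) = ((((j + 1) ^ (2 * Q) : ℕ) : ℝ) - ((j ^ (2 * Q) : ℕ) : ℝ)) := by
    rw [hL, Nat.cast_sub hab, ha, hb]
  have hgap : ∀ i k, pp i + Y ≤ pp k → s ≤ u k - u i := by
    intro i k hik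
    have h5 := (hCC (pp i)).1 (hppCC i)
    have h6 := (hCC (pp k)).1 (hppCC k)
    have h8 := vv_sep (Q := Q) (j₀ := j₀) (j := j) (p := pp i) (q := pp k) hQ hj₀ (by omega)
      (by rw [← ha]; exact h5.1.le) (by omega) (by rw [← hb]; exact h6.2) h2
    rw [← hLr, ← hh] at h8
    have h9 : (Y : ℝ) ≤ (pp k : ℝ) - pp i := by
      have : ((pp i + Y : ℕ) : ℝ) ≤ pp k := by exact_mod_cast hik
      push_cast at this; linarith
    have h10 : ε * L / (4 * (m + 1)) * h ≤ 2 * L * (u k - u i) := by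
      calc ε * L / (4 * (m + 1)) * h ≤ ((pp k : ℝ) - pp i) * h :=
            mul_le_mul_of_nonneg_right (hYlow.trans h9) hh0.le
        _ ≤ 2 * L * (u k - u i) := h8
    have h11 : ε * L / (4 * (m + 1)) * h = (2 * L) * s := by
      rw [hs]; field_simp; ring
    rw [h11] at h10
    exact le_of_mul_le_mul_left h10 (by positivity)
  have hsepU : ∀ i k, i.1 ≠ k.1 → s ≤ |u i - u k| := by
    intro i k hik
    have h5 : pp i + Y ≤ pp k ∨ pp k + Y ≤ pp i := by
      rcases lt_or_gt_of_ne hik with h' | h'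
      · exact hsepN i k h'
      · exact (hsepN k i h').symm
    rcases h5 with h5 | h5
    · rw [abs_sub_comm]; exact (hgap i k h5).trans (le_abs_self _)
    · exact (hgap k i h5).trans (le_abs_self _)
  let lam : Fin (m + 1) × Fin N → ℝ := fun i => ∏ r ∈ univ.erase i.1, (u i - u (r, i.2))⁻¹
  have hlam : ∀ i, |lam i| ≤ (s⁻¹) ^ m := by
    intro i
    exact prod_inv_bound (fun r => u (r, i.2)) hs0 i.1 (fun r hr => hsepU i (r, i.2) hr.symm)
  obtain ⟨c0, hc0⟩ : ∃ c0, c0 = s ^ m * UU j₀ j ^ 2 := ⟨_, rfl⟩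
  have hc0pos : 0 < c0 := by rw [hc0]; positivity
  let g : Fin (m + 1) × Fin N → ℝ := fun i => c0 * lam i / (u i) ^ 2
  refine ⟨sg pp g, ?_, ?_, ?_, ?_⟩
  · intro n hn
    obtain ⟨i, rfl⟩ := sg_ne hn
    exact ⟨(hmem' i).2.2, hppCC i⟩
  · intro n
    by_cases hn : sg pp g n = 0
    · rw [hn, abs_zero]; norm_num
    · obtain ⟨i, rfl⟩ := sg_ne hn
      rw [sg_val hinj]
      simp only [g]
      have hu2 : 0 < u i ^ 2 := pow_pos (hu0 i) 2
      rw [abs_div, abs_mul, abs_of_pos hc0pos, abs_of_pos hu2, div_le_one hu2]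
      calc c0 * |lam i| ≤ c0 * (s⁻¹) ^ m := mul_le_mul_of_nonneg_left (hlam i) hc0pos.le
        _ = UU j₀ j ^ 2 := by
            rw [hc0, inv_pow]; field_simp
        _ ≤ u i ^ 2 := (husq i).1
  · intro P hP
    have e1 : ∑ p ∈ CC Q j, sg pp g p * (vv Q j₀ p) ^ 2 * P.eval (vv Q j₀ p) =
        ∑ p ∈ CC Q j, sg pp g p * ((vv Q j₀ p) ^ 2 * P.eval (vv Q j₀ p)) := by
      apply sum_congr rfl; intro p _; ring
    rw [e1, sg_sum]
    have e2 : ∀ i, (if pp i ∈ CC Q j then g i * ((vv Q j₀ (pp i)) ^ 2 * P.eval (vv Q j₀ (pp i))) else 0) =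
        c0 * (lam i * P.eval (u i)) := by
      intro i
      rw [if_pos (hppCC i)]
      simp only [g]
      have : u i ≠ 0 := (hu0 i).ne'
      change c0 * lam i / u i ^ 2 * (u i ^ 2 * P.eval (u i)) = _
      field_simp
    rw [sum_congr rfl (fun i _ => e2 i), ← mul_sum, Fintype.sum_prod_type_right]
    have e3 : ∀ t : Fin N, ∑ l, lam (l, t) * P.eval (u (l, t)) = 0 := by
      intro t
      apply divdiff (fun l => u (l, t))
      · intro l l' hll
        by_contra hne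
        have h5 := hsepU (l, t) (l', t) hne
        simp only at hll
        rw [hll, sub_self, abs_zero] at h5
        linarith
      · rw [hm]; exact hP
    rw [sum_eq_zero (fun t _ => e3 t), mul_zero]
  · intro x hx1 hx2
    rw [hcard] at hx1 hx2 ⊢
    have e0 : ∑ n ∈ (CC Q j).filter (fun n : ℕ => (n : ℝ) ≤ x), sg pp g n =
        ∑ n ∈ (CC Q j).filter (fun n : ℕ => (n : ℝ) ≤ x), sg pp g n * (fun _ => (1:ℝ)) n := by
      apply sum_congr rfl; intro n _; simp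
    rw [e0, sg_sum, Fintype.sum_prod_type, sum_eq_single 0]
    · have hin : ∀ t : Fin N, pp (0, t) ∈ (CC Q j).filter (fun n : ℕ => (n : ℝ) ≤ x) := by
        intro t
        rw [mem_filter]
        refine ⟨hppCC _, ?_⟩
        have h5 := (hmem' (0, t)).2.1
        have e4 : Xf a b Y ((0, t) : Fin (m + 1) × Fin N).1 = a := by unfold Xf; simp
        rw [e4] at h5
        have h6 : ((pp (0, t) : ℕ) : ℝ) ≤ ((a + Y : ℕ) : ℝ) := by exact_mod_cast h5
        push_cast at h6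
        have h7 : (Y : ℝ) ≤ ε * L := by
          have : (0:ℝ) ≤ (m:ℝ) * Y := by positivity
          linarith
        have h8 : (a : ℝ) = (j : ℝ) ^ (2 * Q) := by rw [ha]; push_cast; ring
        linarith
      have hg0 : ∀ t : Fin N, (ε / (8 * (m + 1))) ^ m / 2 ≤ g (0, t) := by
        intro t
        have hl0 : (h⁻¹) ^ m ≤ lam (0, t) := by
          apply prod_inv_lower (m := m) (by rw [hm]; exact ⟨2 * Q + 2, by ring⟩) (fun r => u (r, t)) (h := h)
          intro r hr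
          have h5 := hmem' (0, t)
          have h6 := hmem' (r, t)
          obtain ⟨f1, f2, f3⟩ := hXf0 r hr
          have e4 : Xf a b Y ((0, t) : Fin (m + 1) × Fin N).1 = a := by unfold Xf; simp
          rw [e4] at h5
          have f1' : Xf a b Y ((r, t) : Fin (m + 1) × Fin N).1 = b - 2 * (r : ℕ) * Y := f1
          rw [f1'] at h6
          have h7 : pp (0, t) + Y ≤ pp (r, t) := by omega
          have h8 := hgap (0, t) (r, t) h7
          have h9 := hu1 (0, t)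
          have h10 := hu1 (r, t)
          constructor
          · linarith
          · rw [hh]; linarith
        simp only [g]
        have hu2 : 0 < u (0, t) ^ 2 := pow_pos (hu0 _) 2
        rw [le_div_iff₀ hu2]
        calc (ε / (8 * (m + 1))) ^ m / 2 * u (0, t) ^ 2 ≤ (ε / (8 * (m + 1))) ^ m / 2 * (2 * UU j₀ j ^ 2) :=
              mul_le_mul_of_nonneg_left (husq _).2 (by positivity)
          _ = c0 * (h⁻¹) ^ m := by
              rw [hc0, hs, mul_pow, inv_pow]; field_simp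
          _ ≤ c0 * lam (0, t) := mul_le_mul_of_nonneg_left hl0 hc0pos.le
      have e5 : ∑ t : Fin N, (if pp (0, t) ∈ (CC Q j).filter (fun n : ℕ => (n : ℝ) ≤ x) then
          g (0, t) * (fun _ => (1:ℝ)) (pp (0, t)) else 0) = ∑ t : Fin N, g (0, t) := by
        apply sum_congr rfl
        intro t _
        rw [if_pos (hin t), mul_one]
      rw [e5]
      have h6 : (N : ℝ) * ((ε / (8 * (m + 1))) ^ m / 2) ≤ ∑ t : Fin N, g (0, t) := by
        have := Finset.sum_le_sum (fun (t : Fin N) (_ : t ∈ (univ : Finset (Fin N))) => hg0 t)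
        rw [sum_const, card_univ, Fintype.card_fin, nsmul_eq_mul] at this
        exact this
      have h7 : (1 / 2) * (η * Y / (4 * Q * Real.log j)) ≤ N := by
        have h8 : η * Y / (4 * Q * Real.log j) < N + 1 := by rw [hN]; exact Nat.lt_floor_add_one _
        have h9 : 1 ≤ η * Y / (4 * Q * Real.log j) := by
          refine h4.trans ?_
          have : ε * j / (4 * (m + 1)) ≤ Y := by
            refine le_trans ?_ hYlow
            gcongr
          gcongr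
        have h10 : (1:ℝ) ≤ N := by
          have : 1 ≤ N := by rw [hN]; exact Nat.le_floor (by exact_mod_cast h9)
          exact_mod_cast this
        linarith
      have h8 : (1 / 2) * (η * (ε * L / (4 * (m + 1))) / (4 * Q * Real.log j)) ≤ N := by
        refine le_trans ?_ h7
        gcongr
      refine le_trans ?_ (le_abs_self _)
      refine le_trans ?_ h6
      have h9 : (ε / (8 * (m + 1))) ^ m / 2 * (1 / 2) * η * (ε / (4 * (m + 1))) / (4 * Q) * L / Real.log j =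
          (1 / 2) * (η * (ε * L / (4 * (m + 1))) / (4 * Q * Real.log j)) * ((ε / (8 * (m + 1))) ^ m / 2) := by
        field_simp
      rw [h9]
      exact mul_le_mul_of_nonneg_right h8 (by positivity)
    · intro l _ hl
      apply sum_eq_zero
      intro t _
      rw [if_neg]
      intro hin
      rw [mem_filter] at hin
      have h6 := hmem' (l, t)
      obtain ⟨f1, f2, f3⟩ := hXf0 l hl
      have f1' : Xf a b Y ((l, t) : Fin (m + 1) × Fin N).1 = b - 2 * (l : ℕ) * Y := f1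
      rw [f1'] at h6
      have h7 : b < pp (l, t) + 2 * m * Y := by omega
      have h8 : (b : ℝ) < (pp (l, t) : ℝ) + 2 * m * Y := by exact_mod_cast h7
      have h9 : (b : ℝ) = ((j : ℝ) + 1) ^ (2 * Q) := by rw [hb]; push_cast; ring
      have h10 := hin.2
      linarith
    · intro h'; exact absurd (mem_univ _) h'

/-- TASK FOR. -/
theorem taskFor : TaskFor := by
  intro hHo
  obtain ⟨δ, η, hδ, hδ1, hη, X₀, hX₀, hH⟩ := hHo
  obtain ⟨Q₀, hQ₀⟩ := exists_nat_ge (1 / δ)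
  refine ⟨Q₀ + 1, fun Q hQQ j₀ hj₀ ε hε hε1 => ?_⟩
  have hQ : 1 ≤ Q := by omega
  have hQ' : (0:ℝ) < Q := by exact_mod_cast hQ
  have hQδ : 1 ≤ Q * δ := by
    have h1 : (Q₀ : ℝ) ≤ Q := by exact_mod_cast (by omega : Q₀ ≤ Q)
    have h2 : 1 / δ ≤ Q := hQ₀.trans h1
    rwa [div_le_iff₀ hδ] at h2
  obtain ⟨m, hm⟩ : ∃ m, m = 4 * Q + 4 := ⟨_, rfl⟩
  refine ⟨((ε / (8 * (m + 1))) ^ m / 2 * (1 / 2) * η * (ε / (4 * (m + 1))) / (4 * Q)), by positivity, ?_⟩
  obtain ⟨B, hB⟩ := exists_nat_ge (8 * ((m:ℝ) + 1) / ε)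
  obtain ⟨J₁, hJ₁2, hJ₁⟩ := cells (η * (ε / (4 * (m + 1))) / (4 * Q) * (4 * (4 * Q + 4) * (16 * Q))) (by positivity)
    (X₀ + B) Q hQ
  refine ⟨J₁, fun j hj hjj₀ => ?_⟩
  obtain ⟨h1, h2, h3, h4⟩ := hJ₁ j hj
  apply cell hδ hδ1 hη hH hQ hQδ hj₀ hε hε1 (by omega) (by omega) h2 hm
  · refine hB.trans ?_
    exact_mod_cast (by omega : B ≤ j)
  · refine h4.trans (le_of_eq ?_)
    have : Real.log j ≠ 0 := by
      apply Real.log_ne_zero_of_pos_of_ne_one
      · have : 0 < j := by omega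
        exact_mod_cast this
      · have : j ≠ 1 := by omega
        exact_mod_cast this
    field_simp

end Pool.Agent.H394R3.ET.For568
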