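import Pool.Agent.H394R3.ET.Asm1
import Pool.Agent.H394R3.ET.Mach2
import Pool.Agent.H927R2.ETDecay
import Pool.Agent.H992R3.ET.Fin
import Pool.Agent.H992R3.ET.Prod
import Pool.Agent.H992R3.ET.Ineq
import Pool.Agent.H993R3.ET.Cells
import Pool.Agent.H475R3.ET.Junk
import Pool.Agent.H278R3.ET.Meas
import Pool.Agent.H335R3.ETSelB
import Pool.Agent.H394R3.ET.Bound
import Pool.Agent.H394R3.ET.For_helper568
import Pool.Agent.H886R3.TaskEMC

/-!
# Project ET: the two elements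
-/

set_option autoImplicit false

open Finset MeasureTheory

namespace Pool.Agent.H394R3.ET

open Pool.Agent.H96R3.BC

/-- good solutions -/
structure Good (Q j₀ : ℕ) (y : ℕ → ℝ) : Prop where
  sol : ∃ f : ℝ → ℝ, Sol Q j₀ (fun _ => 0) y f
  one : ∀ p : ℕ, p.Prime → |y p| ≤ 1

theorem core : ∃ (Q j₀ : ℕ) (y g : ℕ → ℝ), 1 ≤ Q ∧ 3 ≤ j₀ ∧ Good Q j₀ y ∧ Good Q j₀ g ∧
    ∀ ε T₀ : ℝ, 0 < ε → ∃ T : ℝ, T₀ ≤ T ∧ 0 < T ∧
      volume {x : ℝ | T ≤ x ∧ x ≤ 2 * T ∧ AS (Pool.Agent.H13R3.EM.cv (cf g) (cf y)) x * AS (cf y) x ≤ 0} ≤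
        ENNReal.ofReal (ε * T) := by
  have hHo := Pool.Agent.H469R10.HO.hoheisel
  obtain ⟨Q1, hMach⟩ := taskMach
  obtain ⟨Q2, hDec⟩ := Pool.Agent.H927R2.ETDecay.taskDecay
  obtain ⟨Q3, hJunk⟩ := Pool.Agent.H475R3.ET.taskJunk
  obtain ⟨Q4, hCells⟩ := Pool.Agent.H993R3.ET.taskCells
  obtain ⟨Q5, hBound⟩ := Pool.Agent.H394R3.ET.Bound.taskBound
  obtain ⟨Q6, hFor⟩ := Pool.Agent.H394R3.ET.For568.taskFor hHo
  obtain ⟨Q, q1, q2, q3, q4, q5, q6, q7⟩ : ∃ Q : ℕ, Q1 ≤ Q ∧ Q2 ≤ Q ∧ Q3 ≤ Q ∧ Q4 ≤ Q ∧ Q5 ≤ Q ∧ Q6 ≤ Q ∧ 16 ≤ Q :=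
    ⟨Q1 + Q2 + Q3 + Q4 + Q5 + Q6 + 16, by omega, by omega, by omega, by omega, by omega, by omega, by omega⟩
  obtain ⟨C, hC, hMach⟩ := hMach Q q1
  obtain ⟨s', hs', JD, hDec⟩ := hDec Q q2 C hC
  obtain ⟨JM, hMach⟩ := hMach s' hs'
  obtain ⟨j₀, h1, h2, h3⟩ : ∃ j₀ : ℕ, JD ≤ j₀ ∧ JM ≤ j₀ ∧ 3 ≤ j₀ := ⟨JD + JM + 3, by omega, by omega, by omega⟩
  obtain ⟨hMass, a0, w, hw, hMach⟩ := hMach j₀ h2
  have hDec := hDec j₀ h1 a0 w hw hMass
  obtain ⟨KJ, hKJ, hJunk⟩ := hJunk Q q3 C hC j₀ h3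
  have hJunk := hJunk a0 w hw
  obtain ⟨KC', hKC', hCells⟩ := hCells Q q4 C hC j₀ h3
  have hCells := hCells a0 w hw
  obtain ⟨KB, hKB, hBound⟩ := hBound Q q5 j₀ h3 KC' hKC'
  have hFor := hFor Q q6 j₀ (by omega)
  have hQ1 : 1 ≤ Q := by omega
  have hQR : (16:ℝ) ≤ Q := by exact_mod_cast q7
  -- bounds for responses in a solution
  have hyle : ∀ (s x : ℕ → ℝ) (f : ℝ → ℝ), Out Q j₀ w s x f → ∀ p : ℕ, p.Prime → |s p + x p| ≤ 1 :=
    fun s x f ho p hp => ho.sol.small p hp rfl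
  have hlog : ∀ n : ℕ, j₀ ^ (2 * Q) < n → 1 ≤ Real.log n := by
    intro n hn
    have h1 : (3:ℝ) ≤ n := by
      have : 3 ≤ j₀ ^ (2 * Q) := h3.trans (Nat.le_self_pow (by omega) _)
      exact_mod_cast (this.trans hn.le)
    rw [Real.le_log_iff_exp_le (by linarith)]
    have := Real.exp_one_lt_d9
    linarith
  -- decay of the total coefficients
  have htot : ∀ (ρ : ℕ → ℝ), Antitone ρ → (∀ n, 0 ≤ ρ n ∧ ρ n ≤ 1 / 8) → ∀ (s x : ℕ → ℝ) (f : ℝ → ℝ), Frc Q j₀ s →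
      Out Q j₀ w s x f → (∀ n : ℕ, |s n| ≤ 1 / 2 * HH ρ n / (Real.log n) ^ 2) →
      ∀ p : ℕ, p.Prime → |s p + x p| ≤ (p : ℝ) ^ (-ρ p) := by
    intro ρ hρ hρ2 s x f hf ho hs p hp
    have hx := hDec ρ hρ hρ2 s x f hf ho hs p
    have hH : 0 ≤ HH ρ p := by unfold HH; positivity
    by_cases hpj : j₀ ^ (2 * Q) < p
    · have hl := hlog p hpj
      calc |s p + x p| ≤ |s p| + |x p| := abs_add_le _ _
        _ ≤ 1 / 2 * HH ρ p / (Real.log p) ^ 2 + 1 / 2 * HH ρ p / (Real.log p) ^ 2 := add_le_add (hs p) hx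
        _ = HH ρ p / (Real.log p) ^ 2 := by ring
        _ ≤ HH ρ p := div_le_self hH (one_le_pow₀ hl)
        _ = _ := rfl
    · have : s p + x p = 0 := ho.sol.low p (by omega)
      rw [this, abs_zero]
      positivity
  -- the element G
  have hFrc0 : Frc Q j₀ (fun _ => 0) :=
    { supp := fun n hn => absurd rfl hn
      bd := fun n => by rw [abs_zero]; positivity
      mom := fun j _ P _ => by simp }
  obtain ⟨xG, fG, hG⟩ := hMach (fun _ => 0) hFrc0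
  set g : ℕ → ℝ := fun p => (fun _ => (0:ℝ)) p + xG p with hg
  have hgd : ∀ p : ℕ, p.Prime → |g p| ≤ (p : ℝ) ^ (-(1 / 8 : ℝ)) :=
    htot (fun _ => 1 / 8) antitone_const (fun _ => ⟨by norm_num, le_rfl⟩) (fun _ => 0) xG fG hFrc0 hG
      (fun n => by rw [abs_zero]; unfold HH; positivity)
  have hg1 : cf g 1 = 1 := by unfold cf; simp
  -- data of the windows
  set ε : ℕ → ℝ := fun k => 1 / ((k : ℝ) + 5) with hε
  have hε0 : ∀ k, 0 < ε k := fun k => by rw [hε]; positivity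
  have hε4 : ∀ k, ε k < 1 / 4 := fun k => by
    rw [hε]
    apply one_div_lt_one_div_of_lt (by norm_num)
    have : (0:ℝ) ≤ k := by positivity
    linarith
  have hF : ∀ k : ℕ, ∃ c : ℝ, 0 < c ∧ ∃ J₁ : ℕ, ∀ j : ℕ, ∃ σ : ℕ → ℝ, J₁ ≤ j → j₀ ≤ j →
      (∀ n, σ n ≠ 0 → n.Prime ∧ n ∈ CC Q j) ∧ (∀ n, |σ n| ≤ 1) ∧
      (∀ P : Polynomial ℝ, P.natDegree < 4 * Q + 4 →
        ∑ p ∈ CC Q j, σ p * (vv Q j₀ p) ^ 2 * P.eval (vv Q j₀ p) = 0) ∧
      ∀ x : ℝ, (j : ℝ) ^ (2 * Q) + ε k * (CC Q j).card ≤ x → x ≤ ((j : ℝ) + 1) ^ (2 * Q) - ε k * (CC Q j).card →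
        c * (CC Q j).card / Real.log j ≤ |∑ n ∈ (CC Q j).filter (fun n : ℕ => (n : ℝ) ≤ x), σ n| := by
    intro k
    obtain ⟨c, hc, J₁, h⟩ := hFor (ε k) (hε0 k) (hε4 k)
    refine ⟨c, hc, J₁, fun j => ?_⟩
    by_cases hj : J₁ ≤ j ∧ j₀ ≤ j
    · obtain ⟨σ, hσ⟩ := h j hj.1 hj.2
      exact ⟨σ, fun _ _ => hσ⟩
    · exact ⟨fun _ => 0, fun h1 h2 => absurd ⟨h1, h2⟩ hj⟩
  choose c hc J₁ σ hσ using hF
  have hI : ∀ k : ℕ, ∃ R₀ : ℕ, ∀ R : ℕ, R₀ ≤ R → ∀ J : ℕ, R ≤ J → (J + 1) ^ (2 * Q) ≤ 2 * R ^ (2 * Q) → ∀ x : ℝ, 1 ≤ x →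
      x ≤ 2 * (R : ℝ) ^ (2 * Q) →
      KJ * (CC Q J).card * (J : ℝ) ^ (-(2 * Q * rk k)) * Real.log J + KC' * (J : ℝ) ^ ((3 * (Q : ℝ) + 1) / 2) +
        33 * KB * x ^ (1 - 1 / (2 * (Q : ℝ)) - rk k) <
      ((R : ℝ) ^ (2 * Q)) ^ (-dk k) * (c k * (CC Q J).card / Real.log J) := fun k =>
    Pool.Agent.H992R3.ET.taskIneq Q hQ1 (c k) KJ KC' (33 * KB) (dk k) (rk k) (hc k) hKJ hKC' (by positivity) (dk_pos k)
      (dk_lt k) (rk_bd k).2 (by omega)
  choose R1 hR1 using hI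
  have hMe := fun k => Pool.Agent.H278R3.ET.taskMeas Q hQ1 (ε k) (hε0 k) (hε4 k)
  choose R2 hR2 using hMe
  have hTh := fun k => rpow_small (lt_dk k) (by have := rk_bd (k + 1); linarith [this.1]) hQ1
  choose R3 hR3 using hTh
  -- the windows
  set Bd : ℕ → ℕ := fun k => R1 k + R2 k + R3 k + J₁ k + j₀ + k with hBd
  set R : ℕ → ℕ := fun k => Nat.rec (Bd 0) (fun k r => Bd (k + 1) + (2 * r + 1)) k with hRdef
  have hRs : ∀ k, R (k + 1) = Bd (k + 1) + (2 * R k + 1) := fun k => rfl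
  have hRB : ∀ k, Bd k ≤ R k := by
    intro k
    cases k with
    | zero => exact le_rfl
    | succ k => rw [hRs]; omega
  have hRm : ∀ k, 2 * R k + 1 ≤ R (k + 1) := fun k => by rw [hRs]; omega
  have hRmono : StrictMono R := strictMono_nat_of_lt_succ fun k => by have := hRm k; omega
  have b1 : ∀ k, R1 k ≤ R k := fun k => by have := hRB k; simp only [hBd] at this; omega
  have b2 : ∀ k, R2 k ≤ R k := fun k => by have := hRB k; simp only [hBd] at this; omega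
  have b3 : ∀ k, R3 k ≤ R k := fun k => by have := hRB k; simp only [hBd] at this; omega
  have b4 : ∀ k, J₁ k ≤ R k := fun k => by have := hRB k; simp only [hBd] at this; omega
  have b5 : ∀ k, j₀ ≤ R k := fun k => by have := hRB k; simp only [hBd] at this; omega
  have b6 : ∀ k, k ≤ R k := fun k => by have := hRB k; simp only [hBd] at this; omega
  clear_value R
  set T : ℕ → ℕ := fun k => R k ^ (2 * Q) with hT
  have hTm : StrictMono T := fun a b hab => Nat.pow_lt_pow_left (hRmono hab) (by omega)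
  set ρ : ℕ → ℝ := fun n => rk (idx T n) with hρ
  have hρa : Antitone ρ := fun a b hab => rk_anti (idx_mono hTm hab)
  have hρb : ∀ n, 0 ≤ ρ n ∧ ρ n ≤ 1 / 8 := fun n => by
    have := rk_bd (idx T n)
    constructor
    · exact le_trans (by norm_num) this.1
    · exact this.2.trans (by norm_num)
  -- the forcing
  set s : ℕ → ℝ := sF Q R σ with hs
  have hseq : ∀ {k j n : ℕ}, Pw Q R k j → n ∈ CC Q j → s n = ((R k : ℝ) ^ (2 * Q)) ^ (-dk k) * σ k j n :=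
    fun h hn => sF_eq hRm hQ1 σ h hn
  have hσ2 : ∀ {k j : ℕ}, Pw Q R k j → (∀ n, σ k j n ≠ 0 → n.Prime ∧ n ∈ CC Q j) ∧ (∀ n, |σ k j n| ≤ 1) ∧
      (∀ P : Polynomial ℝ, P.natDegree < 4 * Q + 4 →
        ∑ p ∈ CC Q j, σ k j p * (vv Q j₀ p) ^ 2 * P.eval (vv Q j₀ p) = 0) ∧
      ∀ x : ℝ, (j : ℝ) ^ (2 * Q) + ε k * (CC Q j).card ≤ x → x ≤ ((j : ℝ) + 1) ^ (2 * Q) - ε k * (CC Q j).card →
        c k * (CC Q j).card / Real.log j ≤ |∑ n ∈ (CC Q j).filter (fun n : ℕ => (n : ℝ) ≤ x), σ k j n| :=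
    fun {k j} h => hσ k j ((b4 k).trans h.1) ((b5 k).trans h.1)
  have hssupp : ∀ n, s n ≠ 0 → ∃ k j, Pw Q R k j ∧ n ∈ CC Q j ∧ σ k j n ≠ 0 := by
    intro n hn
    by_cases hex : ∃ k j, Pw Q R k j ∧ n ∈ CC Q j
    · obtain ⟨k, j, h1, h2⟩ := hex
      refine ⟨k, j, h1, h2, fun h => ?_⟩
      rw [hseq h1 h2, h, mul_zero] at hn
      exact hn rfl
    · exfalso
      apply hn
      apply sF_zero
      intro k j h1 h2
      exact hex ⟨k, j, h1, h2⟩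
  have hsb : ∀ n : ℕ, |s n| ≤ 1 / 2 * HH ρ n / (Real.log n) ^ 2 := by
    intro n
    by_cases hn : s n = 0
    · rw [hn, abs_zero]; unfold HH; positivity
    · obtain ⟨k, j, h1, h2, h3'⟩ := hssupp n hn
      have hm := (mem_CC.1 h2)
      have hTn : T k < n := lt_of_le_of_lt (Nat.pow_le_pow_left h1.1 _) hm.1
      have hn2T : n ≤ 2 * R k ^ (2 * Q) := hm.2.trans h1.2
      have hTn2 : n ≤ T (k + 1) := by
        refine hn2T.trans ?_
        have h5 : 2 * R k ^ (2 * Q) ≤ (2 * R k) ^ (2 * Q) := by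
          rw [mul_pow]
          apply Nat.mul_le_mul_right
          exact Nat.le_self_pow (by omega) 2
        exact h5.trans (Nat.pow_le_pow_left (by have := hRm k; omega) _)
      have hidx : ρ n = rk (k + 1) := by
        show rk (idx T n) = _
        rw [idx_eq hTm hTn hTn2]
      have hprime := ((hσ2 h1).1 n h3').1
      have h6 := hR3 k (R k) (b3 k) n hprime.two_le (by exact_mod_cast hn2T)
      rw [hseq h1 h2, abs_mul, abs_of_nonneg (by positivity : (0:ℝ) ≤ ((R k : ℝ) ^ (2 * Q)) ^ (-dk k))]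
      unfold HH
      rw [hidx]
      calc ((R k : ℝ) ^ (2 * Q)) ^ (-dk k) * |σ k j n| ≤ ((R k : ℝ) ^ (2 * Q)) ^ (-dk k) * 1 :=
            mul_le_mul_of_nonneg_left ((hσ2 h1).2.1 n) (by positivity)
        _ = ((R k : ℝ) ^ (2 * Q)) ^ (-dk k) := mul_one _
        _ ≤ _ := h6
  have hsp : ∀ n, s n ≠ 0 → n.Prime := by
    intro n hn
    obtain ⟨k, j, h1, h2, h3'⟩ := hssupp n hn
    exact ((hσ2 h1).1 n h3').1
  have hFrc : Frc Q j₀ s := by
    refine { supp := ?_, bd := ?_, mom := ?_ }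
    · intro n hn
      obtain ⟨k, j, h1, h2, h3'⟩ := hssupp n hn
      refine ⟨((hσ2 h1).1 n h3').1, ?_⟩
      exact lt_of_le_of_lt (Nat.pow_le_pow_left ((b5 k).trans h1.1) _) (mem_CC.1 h2).1
    · intro n
      refine (hsb n).trans ?_
      have hH : HH ρ n ≤ 1 ∨ n = 0 := by
        rcases Nat.eq_zero_or_pos n with h | h
        · exact Or.inr h
        · left
          unfold HH
          apply Real.rpow_le_one_of_one_le_of_nonpos (by exact_mod_cast h)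
          linarith [(hρb n).1]
      rcases hH with hH | hH
      · have : 0 ≤ (Real.log n) ^ 2 := by positivity
        apply div_le_div_of_nonneg_right _ this
        linarith
      · rw [hH]; simp
    · intro j hj P hP
      by_cases hex : ∃ k, Pw Q R k j
      · obtain ⟨k, hk⟩ := hex
        have e : ∑ p ∈ CC Q j, s p * (vv Q j₀ p) ^ 2 * P.eval (vv Q j₀ p) =
            ((R k : ℝ) ^ (2 * Q)) ^ (-dk k) * ∑ p ∈ CC Q j, σ k j p * (vv Q j₀ p) ^ 2 * P.eval (vv Q j₀ p) := by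
          rw [Finset.mul_sum]
          apply Finset.sum_congr rfl
          intro p hp
          rw [hseq hk hp]
          ring
        rw [e, (hσ2 hk).2.2.1 P hP, mul_zero]
      · apply Finset.sum_eq_zero
        intro p hp
        have : s p = 0 := by
          apply sF_zero
          intro k j' h1 h2
          apply hex
          rw [CC_unique hp h2]
          exact ⟨k, h1⟩
        rw [this]
        ring
  obtain ⟨x, f, hO⟩ := hMach s hFrc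
  set y : ℕ → ℝ := fun p => s p + x p with hy
  have hyd : ∀ p : ℕ, p.Prime → |y p| ≤ (p : ℝ) ^ (-ρ p) := htot ρ hρa hρb s x f hFrc hO hsb
  have hyk : ∀ (k : ℕ) (q : ℕ), q.Prime → q ≤ R k ^ (2 * Q) → |y q| ≤ (q : ℝ) ^ (-rk k) := by
    intro k q hq hqk
    refine (hyd q hq).trans ?_
    apply Real.rpow_le_rpow_of_exponent_le (by exact_mod_cast hq.one_le)
    have : rk k ≤ ρ q := rk_anti (idx_le hqk)
    linarith
  refine ⟨Q, j₀, y, g, hQ1, h3, ⟨⟨f, hO.sol⟩, hyle s x f hO⟩, ⟨⟨fG, hG.sol⟩, hyle _ xG fG hG⟩, ?_⟩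
  -- one window
  have window : ∀ k : ℕ, ∀ J : ℕ, R k ≤ J → (J + 1) ^ (2 * Q) ≤ 2 * R k ^ (2 * Q) → ∀ z : ℝ,
      (J : ℝ) ^ (2 * Q) + ε k * (CC Q J).card ≤ z → z ≤ ((J : ℝ) + 1) ^ (2 * Q) - ε k * (CC Q J).card →
      0 < AS (Pool.Agent.H13R3.EM.cv (cf g) (cf y)) z * AS (cf y) z := by
    intro k J hJ1 hJ2 z hz1 hz2
    have hPw : Pw Q R k J := ⟨hJ1, hJ2⟩
    have hc0 : (0:ℝ) ≤ ε k * (CC Q J).card := mul_nonneg (hε0 k).le (by positivity)
    have hzl : (J : ℝ) ^ (2 * Q) ≤ z := by linarith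
    have hzu : z ≤ ((J : ℝ) + 1) ^ (2 * Q) := by linarith
    have hJ0 : j₀ ≤ J := (b5 k).trans hJ1
    have hJ1' : (1:ℝ) ≤ J := by
      have : 1 ≤ J := by omega
      exact_mod_cast this
    have hz1' : 1 ≤ z := le_trans (one_le_pow₀ hJ1') hzl
    have hz2T : z ≤ 2 * (R k : ℝ) ^ (2 * Q) := by
      refine hzu.trans ?_
      exact_mod_cast hJ2
    have hrb := rk_bd k
    -- forcing
    set S : ℝ := ∑ n ∈ (CC Q J).filter (fun n : ℕ => (n : ℝ) ≤ z), s n with hS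
    have hSeq : S = ((R k : ℝ) ^ (2 * Q)) ^ (-dk k) * ∑ n ∈ (CC Q J).filter (fun n : ℕ => (n : ℝ) ≤ z), σ k J n := by
      rw [hS, Finset.mul_sum]
      apply Finset.sum_congr rfl
      intro n hn
      exact hseq hPw (Finset.mem_filter.1 hn).1
    have hSlow : ((R k : ℝ) ^ (2 * Q)) ^ (-dk k) * (c k * (CC Q J).card / Real.log J) ≤ |S| := by
      rw [hSeq, abs_mul, abs_of_nonneg (by positivity : (0:ℝ) ≤ ((R k : ℝ) ^ (2 * Q)) ^ (-dk k))]
      exact mul_le_mul_of_nonneg_left ((hσ2 hPw).2.2.2 z hz1 hz2) (by positivity)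
    -- first element
    have hA : |AS (cf y) z - S| ≤ KJ * (CC Q J).card * (J : ℝ) ^ (-(2 * Q * rk k)) * Real.log J +
        KC' * (J : ℝ) ^ ((3 * (Q : ℝ) + 1) / 2) := by
      rw [AS_cell (cf y) hzl hzu]
      have e1 := hCells s x f hFrc hO J hJ0
      have e2 := cell_split (Q := Q) (s := s) (x := x) hsp (J := J) z
      have e3 := hJunk s x f hFrc hO (R k) J (rk k) (b5 k) hJ1 hJ2 (by linarith) (by linarith) (hyk k)
      have e4 : ∑ n ∈ Icc 1 (J ^ (2 * Q)), cf y n + ∑ n ∈ (CC Q J).filter (fun n : ℕ => (n : ℝ) ≤ z), cf y n - S =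
          ∑ n ∈ Icc 1 (J ^ (2 * Q)), cf y n + (∑ n ∈ (CC Q J).filter (fun n : ℕ => (n : ℝ) ≤ z), cf y n - S) := by ring
      rw [e4]
      refine (abs_add_le _ _).trans ?_
      rw [add_comm]
      exact add_le_add (e2.trans e3) e1
    -- second element
    have hθ : (0:ℝ) < 1 - 1 / (2 * (Q : ℝ)) - rk k := by
      have : 1 / (2 * (Q : ℝ)) ≤ 1 / 32 := by
        apply one_div_le_one_div_of_le (by norm_num)
        linarith
      linarith
    have hQ32 : 1 / (2 * (Q : ℝ)) ≤ 1 / 32 := by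
      apply one_div_le_one_div_of_le (by norm_num)
      linarith
    have hr' : (1:ℝ) / 32 ≤ 1 / 8 - 1 / (2 * (Q : ℝ)) - rk k := by linarith
    have hB : |AS (Pool.Agent.H13R3.EM.cv (cf g) (cf y)) z - AS (cf y) z| ≤
        33 * KB * z ^ (1 - 1 / (2 * (Q : ℝ)) - rk k) := by
      have hp := Pool.Agent.H992R3.ET.taskProd (cf y) (cf g) KB (1 - 1 / (2 * (Q : ℝ)) - rk k)
        (1 / 8 - 1 / (2 * (Q : ℝ)) - rk k) (2 * (R k : ℝ) ^ (2 * Q)) hKB.le hθ (by linarith) hg1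
        (fun n hn => by
          have := cf_le_rpow hgd hn
          have e : -(1 - (1 - 1 / (2 * (Q : ℝ)) - rk k) + (1 / 8 - 1 / (2 * (Q : ℝ)) - rk k)) = -(1 / 8 : ℝ) := by ring
          rw [e]
          exact this)
        (fun v hv1 hv2 => hBound y (fun p hp => hO.sol.low p hp) (fun J hJ => hCells s x f hFrc hO J hJ) (R k) (rk k)
          (b5 k) (by linarith) hrb.2 (hyk k) v hv1 (by linarith)) z hz1' hz2T
      refine hp.trans ?_
      have h1 : 1 / (1 / 8 - 1 / (2 * (Q : ℝ)) - rk k) ≤ 32 := by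
        rw [div_le_iff₀ (by linarith)]
        linarith
      have h2 : 0 ≤ z ^ (1 - 1 / (2 * (Q : ℝ)) - rk k) := by positivity
      apply mul_le_mul_of_nonneg_right _ h2
      nlinarith
    have hfin := hR1 k (R k) (b1 k) J hJ1 hJ2 z hz1' hz2T
    exact sign_arg hA hB (lt_of_lt_of_le hfin hSlow)
  intro e T₀ he
  obtain ⟨k, hk⟩ := exists_nat_ge (max (3 / e) T₀)
  have hk1 : 3 / e ≤ k := (le_max_left _ _).trans hk
  have hk2 : T₀ ≤ k := (le_max_right _ _).trans hk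
  have hRk : (k : ℝ) ≤ (R k : ℝ) ^ (2 * Q) := by
    have h1 : k ≤ R k ^ (2 * Q) := (b6 k).trans (Nat.le_self_pow (by omega) _)
    exact_mod_cast h1
  have hRpos : (0:ℝ) < (R k : ℝ) ^ (2 * Q) := by
    have h1 : 0 < R k := by have := b5 k; omega
    have : (0:ℝ) < R k := by exact_mod_cast h1
    positivity
  refine ⟨(R k : ℝ) ^ (2 * Q), hk2.trans hRk, hRpos, ?_⟩
  refine (hR2 k (R k) (b2 k) (fun z => AS (Pool.Agent.H13R3.EM.cv (cf g) (cf y)) z * AS (cf y) z) (window k)).trans ?_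
  apply ENNReal.ofReal_le_ofReal
  apply mul_le_mul_of_nonneg_right _ hRpos.le
  rw [hε]
  simp only []
  rw [mul_one_div, div_le_iff₀ (by positivity)]
  rw [div_le_iff₀ he] at hk1
  nlinarith

end Pool.Agent.H394R3.ET
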