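import Pool.Agent.H394R3.ET.Asm2

/-!
# Project ET: the elements of the Selberg class
-/

set_option autoImplicit false

open Finset MeasureTheory

namespace Pool.Agent.H394R3.ET

open Pool.Agent.H96R3.BC
open Pool.Agent.H13R3.EM (Sel cv)

/-- a good solution gives an element of the Selberg class of degree `8 Q` -/
theorem sel_of {Q j₀ : ℕ} {y : ℕ → ℝ} (hQ : 1 ≤ Q) (hj : 3 ≤ j₀) (h : Good Q j₀ y) :
    ∃ F : Sel, F.m0 = 0 ∧ F.deg = 8 * (Q : ℝ) ∧ ∀ n : ℕ, 1 ≤ n → F.a n = ((cf y n : ℝ) : ℂ) := by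
  obtain ⟨f, hf⟩ := h.sol
  have hK1 : TaskKer1 := Pool.Agent.H589R3.BC.taskKer1
  have hK2 : TaskKer2 := Pool.Agent.H553R3.BC.taskKer2
  have h1 : ∀ n : ℕ, 1 ≤ n → |cf y n| ≤ 1 := by
    intro n hn
    have := cf_le_rpow (y := y) (r := 0) (fun p hp => by simpa using h.one p hp) hn
    simpa using this
  have hlin : ∃ C : ℝ, ∀ n : ℕ, 1 ≤ n → |cf y n| ≤ C * n := by
    refine ⟨1, fun n hn => (h1 n hn).trans ?_⟩
    rw [one_mul]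
    exact_mod_cast hn
  have hth := Pool.Agent.H993R3.BC.taskTheta hK1 hK2 Q j₀ (fun _ => 0) y f hQ (by omega) hf hlin
  refine Pool.Agent.H335R3.ETSelB.taskSelB Q j₀ y hQ (by omega) ?_ ?_ hth
  · intro ε hε
    refine ⟨1, fun n hn => (h1 n hn).trans ?_⟩
    rw [one_mul]
    exact Real.one_le_rpow (by exact_mod_cast hn) hε.le
  · intro p hp
    exact (h.one p hp).trans (Real.one_le_rpow (by exact_mod_cast hp.one_le) (by norm_num))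

lemma err_eq {F : Sel} (h0 : F.m0 = 0) {a : ℕ → ℝ} (ha : ∀ n : ℕ, 1 ≤ n → F.a n = ((a n : ℝ) : ℂ)) (x : ℝ) :
    F.err x = ((AS a x : ℝ) : ℂ) := by
  unfold Sel.err Sel.res
  rw [if_pos h0, sub_zero]
  show _ = ((∑ n ∈ Icc 1 ⌊x⌋₊, a n : ℝ) : ℂ)
  rw [Complex.ofReal_sum]
  apply Finset.sum_congr rfl
  intro n hn
  exact ha n (Finset.mem_Icc.1 hn).1

/-- **Two entire elements of the Selberg class with real coefficients and integer degrees `d₁ < d₂`, whose error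
terms have a positive product off a set of relative measure `ε` on `[T, 2T]`, for arbitrarily large `T`.** -/
theorem strong : ∃ (F₁ F₂ : Sel) (d₁ d₂ : ℕ) (a₁ a₂ : ℕ → ℝ), 2 ≤ d₁ ∧ d₁ < d₂ ∧ F₁.deg = (d₁ : ℝ) ∧ F₂.deg = (d₂ : ℝ) ∧
    F₁.m0 = 0 ∧ F₂.m0 = 0 ∧ (∀ n : ℕ, 1 ≤ n → F₁.a n = ((a₁ n : ℝ) : ℂ)) ∧ (∀ n : ℕ, 1 ≤ n → F₂.a n = ((a₂ n : ℝ) : ℂ)) ∧
    (∀ x : ℝ, F₁.err x = ((AS a₁ x : ℝ) : ℂ)) ∧ (∀ x : ℝ, F₂.err x = ((AS a₂ x : ℝ) : ℂ)) ∧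
    ∀ ε T₀ : ℝ, 0 < ε → ∃ T : ℝ, T₀ ≤ T ∧ 0 < T ∧
      volume {x : ℝ | T ≤ x ∧ x ≤ 2 * T ∧ AS a₁ x * AS a₂ x ≤ 0} ≤ ENNReal.ofReal (ε * T) := by
  obtain ⟨Q, j₀, y, g, hQ, hj, hy, hg, hmain⟩ := core
  obtain ⟨F₁, hF₁0, hF₁d, hF₁a⟩ := sel_of hQ hj hy
  obtain ⟨G, hG0, hGd, hGa⟩ := sel_of hQ hj hg
  obtain ⟨F₂, hF₂0, hF₂d, hF₂a⟩ := Pool.Agent.H886R3.EMC.taskC G F₁ hG0 hF₁0
  have hF₂a' : ∀ n : ℕ, 1 ≤ n → F₂.a n = ((cv (cf g) (cf y) n : ℝ) : ℂ) := by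
    intro n hn
    rw [hF₂a n hn]
    unfold cv
    rw [Complex.ofReal_sum]
    apply Finset.sum_congr rfl
    intro z hz
    have hz2 := Nat.mem_divisorsAntidiagonal.1 hz
    have h1 : 1 ≤ z.1 := by
      rcases Nat.eq_zero_or_pos z.1 with h | h
      · rw [h, zero_mul] at hz2; omega
      · exact h
    have h2 : 1 ≤ z.2 := by
      rcases Nat.eq_zero_or_pos z.2 with h | h
      · rw [h, mul_zero] at hz2; omega
      · exact h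
    rw [hGa _ h1, hF₁a _ h2, Complex.ofReal_mul]
  refine ⟨F₁, F₂, 8 * Q, 16 * Q, cf y, cv (cf g) (cf y), by omega, by omega, ?_, ?_, hF₁0, hF₂0, hF₁a, hF₂a',
    err_eq hF₁0 hF₁a, err_eq hF₂0 hF₂a', ?_⟩
  · rw [hF₁d]; push_cast; ring
  · rw [hF₂d, hGd, hF₁d]; push_cast; ring
  · intro ε T₀ hε
    obtain ⟨T, h1, h2, h3⟩ := hmain ε T₀ hε
    refine ⟨T, h1, h2, ?_⟩
    have e : {x : ℝ | T ≤ x ∧ x ≤ 2 * T ∧ AS (cf y) x * AS (cv (cf g) (cf y)) x ≤ 0} =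
        {x : ℝ | T ≤ x ∧ x ≤ 2 * T ∧ AS (cv (cf g) (cf y)) x * AS (cf y) x ≤ 0} := by
      ext x
      simp only [Set.mem_setOf_eq, mul_comm]
    rw [e]
    exact h3

end Pool.Agent.H394R3.ET
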