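import Pool.Agent.H336R4.BC.FixB
import Pool.Agent.H394R3.ET.Stmts

/-!
# FIXB with explicit constants (variant of helper336's theorem)
-/

set_option autoImplicit false

open Finset MeasureTheory

namespace Pool.Agent.H394R3.ET

open Pool.Agent.H96R3.BC Pool.Agent.H336R4.BC

/-- FIXB with explicit `κ = j₀^Q` and room for a forcing -/
theorem fixB2 (h1 : TaskKer1) (h2 : TaskKer2) (hd : TaskDef) (hsum : TaskSum) : ∃ Q₀ : ℕ, ∀ Q : ℕ, Q₀ ≤ Q → ∀ C : ℝ, 0 < C →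
  ∃ s : ℝ, 0 < s ∧ ∃ J₀ : ℕ, ∀ j₀ : ℕ, J₀ ≤ j₀ →
    ((Summable (qb Q j₀) ∧ ∑' i, qb Q j₀ i ≤ (j₀ : ℝ) ^ Q / 8) ∧ (Summable (qa Q j₀) ∧ ∑' i, qa Q j₀ i ≤ (j₀ : ℝ) ^ Q / 8)) ∧
    (∀ v : ℝ, 0 ≤ v → |(vv Q j₀ 1) ^ 2 * KK (4 * Q + 4) (vv Q j₀ 1) v| ≤ (j₀ : ℝ) ^ Q / 4 * NN Q v) ∧
    ∀ (a0 : ℕ → ℝ) (w : ℕ → ℝ → ℝ), Wts Q j₀ C a0 w → ∀ (c : ℕ → ℝ) (f : ℝ → ℝ) (D : ℝ), 0 ≤ D → Continuous f →
      (∀ j, j₀ ≤ j → ∑ n ∈ NB Q a0 j, |c n| ≤ D * (s * (CC Q j).card / (Real.log j) ^ 3)) →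
      (∀ v : ℝ, 0 ≤ v → |f v| ≤ D * ((j₀ : ℝ) ^ Q * NN Q v)) →
      (∀ j, j₀ ≤ j → ∀ p ∈ CC Q j, p.Prime → |XL Q j₀ a0 w c f j p| ≤ D / 2 * (1 / 2 / (Real.log p) ^ 2)) ∧
      (∀ v : ℝ, 0 ≤ v → |FL Q j₀ a0 w c f v| ≤ D / 2 * ((j₀ : ℝ) ^ Q * NN Q v)) ∧
      (Continuous fun v : ℝ => FL Q j₀ a0 w c f (max v 0)) ∧
      (∃ M : ℕ → ℝ, Summable M ∧ ∀ (i : ℕ) (v : ℝ), 0 ≤ v → |BL Q j₀ a0 w c f (j₀ + i) v| ≤ M i * v ^ (8 * Q + 7)) := by
  obtain ⟨Q₁, hQ₁⟩ := hsum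
  refine ⟨max Q₁ 2, fun Q hQ C hC => ?_⟩
  have hQ1 : Q₁ ≤ Q := (le_max_left _ _).trans hQ
  have hQ2 : 2 ≤ Q := (le_max_right _ _).trans hQ
  obtain ⟨CS, hCS, J₁, hJ₁⟩ := hQ₁ Q hQ1
  have hQR : (2:ℝ) ≤ Q := by exact_mod_cast hQ2
  obtain ⟨s, hs, hs1, hs2⟩ : ∃ s : ℝ, 0 < s ∧ s ≤ 1 ∧ 16 * (Q:ℝ) ^ 2 * C * (2 * (2 * s)) ≤ 1 / 4 := by
    refine ⟨min 1 (1 / (256 * (Q:ℝ) ^ 2 * C)), by positivity, min_le_left _ _, ?_⟩
    have h : min 1 (1 / (256 * (Q:ℝ) ^ 2 * C)) ≤ 1 / (256 * (Q:ℝ) ^ 2 * C) := min_le_right _ _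
    calc 16 * (Q:ℝ) ^ 2 * C * (2 * (2 * min 1 (1 / (256 * (Q:ℝ) ^ 2 * C))))
        ≤ 16 * (Q:ℝ) ^ 2 * C * (2 * (2 * (1 / (256 * (Q:ℝ) ^ 2 * C)))) := by
          apply mul_le_mul_of_nonneg_left _ (by positivity)
          apply mul_le_mul_of_nonneg_left _ (by norm_num)
          exact mul_le_mul_of_nonneg_left h (by norm_num)
      _ = 1 / 4 := by field_simp; norm_num
  obtain ⟨J₂, hJ₂⟩ := exists_J (1 / (128 * (Q:ℝ) ^ 2 * C * CS)) (by positivity)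
  obtain ⟨J₃, hJ₃⟩ := exists_nat_ge (96 * (1 + C) * CS)
  refine ⟨s, hs, max (max J₁ J₂) (max J₃ 12), fun j₀ hj => ?_⟩
  have hj1 : J₁ ≤ j₀ := ((le_max_left _ _).trans (le_max_left _ _)).trans hj
  have hj2 : J₂ ≤ j₀ := ((le_max_right _ _).trans (le_max_left _ _)).trans hj
  have hj3 : J₃ ≤ j₀ := ((le_max_left _ _).trans (le_max_right _ _)).trans hj
  have hj12 : 12 ≤ j₀ := ((le_max_right _ _).trans (le_max_right _ _)).trans hj
  have hj12R : (12:ℝ) ≤ j₀ := by exact_mod_cast hj12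
  have hj3R : 96 * (1 + C) * CS ≤ j₀ := hJ₃.trans (by exact_mod_cast hj3)
  obtain ⟨⟨hb, hb2⟩, ⟨hd', hd2⟩, ⟨ha, ha2⟩, ⟨hc', hc2⟩, h5⟩ := hJ₁ j₀ hj1
  set κ : ℝ := (j₀ : ℝ) ^ Q with hκdef
  have hκ : 0 < κ := by positivity
  have hκ1 : (j₀ : ℝ) ≤ κ := by
    calc (j₀ : ℝ) = (j₀ : ℝ) ^ 1 := (pow_one _).symm
      _ ≤ (j₀ : ℝ) ^ Q := pow_le_pow_right₀ (by linarith) (by omega)
  have hCκ : CS ≤ κ / 8 := by
    have : 96 * CS ≤ 96 * (1 + C) * CS := by nlinarith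
    linarith
  refine ⟨⟨⟨hb, hb2.trans hCκ⟩, ⟨ha, ha2.trans hCκ⟩⟩, fun v hv => source_le h2 (by omega) hj12 hv, ?_⟩
  intro a0 w hw c f D hD hfc hc hf
  have hsT : Summable (TT Q j₀ C s κ) := TT_summable ha hb hc' hd'
  have hTsum := TT_tsum (C := C) (s := s) (κ := κ) hC.le hs.le hκ.le ha hb hc' hd' ha2 hb2 hc2 hd2
  have hTκ : ∑' i, TT Q j₀ C s κ i ≤ κ / 12 := by
    refine hTsum.trans ?_
    have e1 : (1 + C) * (s * (4 * CS)) ≤ κ / 24 := by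
      have : (1 + C) * (s * (4 * CS)) ≤ (1 + C) * (1 * (4 * CS)) := by
        apply mul_le_mul_of_nonneg_left _ (by linarith)
        exact mul_le_mul_of_nonneg_right hs1 (by positivity)
      linarith
    have e2 : (1 + C) * (κ * (4 * (CS / j₀))) ≤ κ / 24 := by
      have e3 : (1 + C) * (κ * (4 * (CS / j₀))) = κ * ((4 * (1 + C) * CS) / j₀) := by ring
      rw [e3]
      have e4 : (4 * (1 + C) * CS) / j₀ ≤ 1 / 24 := by
        rw [div_le_iff₀ (by linarith)]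
        linarith
      calc κ * ((4 * (1 + C) * CS) / j₀) ≤ κ * (1 / 24) := mul_le_mul_of_nonneg_left e4 hκ.le
        _ = κ / 24 := by ring
    rw [mul_add]
    linarith
  have hlarge : ∀ (i : ℕ) (v : ℝ), 0 ≤ v → |bl Q j₀ a0 w c f (j₀ + i) v| * WW Q v ≤ D * TT Q j₀ C s κ i :=
    fun i v hv => bl_large h1 h2 hd (by omega) (by omega) hC.le hw hs.le hκ.le hD hc hf i hv
  have hlarge2 : ∀ (i : ℕ) (v : ℝ), 0 ≤ v → |bl Q j₀ a0 w c f (j₀ + i) v| ≤ D * TT Q j₀ C s κ i := by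
    intro i v hv
    refine le_trans ?_ (hlarge i v hv)
    exact le_mul_of_one_le_right (abs_nonneg _) (WW_one_le Q v)
  refine ⟨fun j hj' p hp hpp => ?_, fun v hv => ?_, ?_, ?_⟩
  · -- new coefficients
    have hXL := XL_le (κ := 2 * κ) (s := 2 * s) (D := D / 2) (CS := CS) (Q := Q) (j₀ := j₀) (c := c) (f := f)
      (by omega) (by omega) hC hCS (by linarith) (by linarith) (by linarith) hw h5
      (fun j hj => (hc j hj).trans (le_of_eq (by ring))) (fun v hv => (hf v hv).trans (le_of_eq (by ring))) ?_ hj' hp hpp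
    · exact hXL.trans (le_of_eq (by ring))
    have e1 : 2 * κ * CS * (Real.log j₀) ^ 3 / (j₀ : ℝ) ^ (2 * Q) = 2 * CS * ((Real.log j₀) ^ 3 / κ) := by
      have : (j₀ : ℝ) ^ (2 * Q) = κ * κ := by rw [hκdef, ← pow_add]; congr 1; ring
      rw [this]
      field_simp
    have e2 : (Real.log j₀) ^ 3 / κ ≤ 1 / (128 * (Q:ℝ) ^ 2 * C * CS) := by
      refine le_trans ?_ (hJ₂ j₀ hj2)
      apply div_le_div_of_nonneg_left _ (by linarith) hκ1
      exact pow_nonneg (Real.log_natCast_nonneg _) _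
    rw [e1, mul_add]
    have e3 : 16 * (Q:ℝ) ^ 2 * C * (2 * CS * ((Real.log j₀) ^ 3 / κ)) ≤ 1 / 4 := by
      calc 16 * (Q:ℝ) ^ 2 * C * (2 * CS * ((Real.log j₀) ^ 3 / κ))
          ≤ 16 * (Q:ℝ) ^ 2 * C * (2 * CS * (1 / (128 * (Q:ℝ) ^ 2 * C * CS))) := by
            apply mul_le_mul_of_nonneg_left _ (by positivity)
            exact mul_le_mul_of_nonneg_left e2 (by linarith)
        _ = 1 / 4 := by field_simp; norm_num
    linarith
  · -- new density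
    have hWp := WW_pos Q v
    have hsb : Summable fun i => |bl Q j₀ a0 w c f (j₀ + i) v| :=
      Summable.of_nonneg_of_le (fun i => abs_nonneg _) (fun i => hlarge2 i v hv) (hsT.mul_left D)
    have hsum1 : |∑' i, bl Q j₀ a0 w c f (j₀ + i) v| * WW Q v ≤ D * (κ / 12) := by
      have e1 : |∑' i, bl Q j₀ a0 w c f (j₀ + i) v| ≤ ∑' i, |bl Q j₀ a0 w c f (j₀ + i) v| := by
        have := norm_tsum_le_tsum_norm (f := fun i => bl Q j₀ a0 w c f (j₀ + i) v) (by simpa using hsb)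
        simpa using this
      calc |∑' i, bl Q j₀ a0 w c f (j₀ + i) v| * WW Q v
          ≤ (∑' i, |bl Q j₀ a0 w c f (j₀ + i) v|) * WW Q v := mul_le_mul_of_nonneg_right e1 hWp.le
        _ = ∑' i, |bl Q j₀ a0 w c f (j₀ + i) v| * WW Q v := by rw [tsum_mul_right]
        _ ≤ ∑' i, D * TT Q j₀ C s κ i :=
            Summable.tsum_le_tsum (fun i => hlarge i v hv) (hsb.mul_right _) (hsT.mul_left D)
        _ = D * ∑' i, TT Q j₀ C s κ i := tsum_mul_left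
        _ ≤ D * (κ / 12) := mul_le_mul_of_nonneg_left hTκ hD
    have hlow := low_le h2 hQ2 hκ.le hD hf hv
    have hfl : |fl Q j₀ a0 w c f v| * WW Q v ≤ D / 2 * κ := by
      unfold fl
      calc |-(∫ u in (0:ℝ)..1, f u * ph Q (u * v)) + ∑' i : ℕ, bl Q j₀ a0 w c f (j₀ + i) v| * WW Q v
          ≤ (|∫ u in (0:ℝ)..1, f u * ph Q (u * v)| + |∑' i : ℕ, bl Q j₀ a0 w c f (j₀ + i) v|) * WW Q v := by
            apply mul_le_mul_of_nonneg_right _ hWp.le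
            refine (abs_add_le _ _).trans ?_
            rw [abs_neg]
        _ = |∫ u in (0:ℝ)..1, f u * ph Q (u * v)| * WW Q v + |∑' i : ℕ, bl Q j₀ a0 w c f (j₀ + i) v| * WW Q v := by
            ring
        _ ≤ D * κ / 3 + D * (κ / 12) := add_le_add hlow hsum1
        _ ≤ D / 2 * κ := by
            have : 0 ≤ D * κ := by positivity
            linarith
    rw [FL_eq, NN_eq Q hv, abs_mul, abs_of_nonneg (by positivity : (0:ℝ) ≤ v ^ (4 * Q + 3))]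
    calc v ^ (4 * Q + 3) * |fl Q j₀ a0 w c f v|
        = v ^ (4 * Q + 3) / WW Q v * (|fl Q j₀ a0 w c f v| * WW Q v) := by field_simp
      _ ≤ v ^ (4 * Q + 3) / WW Q v * (D / 2 * κ) := mul_le_mul_of_nonneg_left hfl (by positivity)
      _ = _ := by ring
  · -- continuity
    have hm : Continuous fun v : ℝ => max v 0 := continuous_id.max continuous_const
    have : (fun v : ℝ => FL Q j₀ a0 w c f (max v 0)) =
        fun v : ℝ => (max v 0) ^ (4 * Q + 3) * fl Q j₀ a0 w c f (max v 0) := by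
      funext v; rw [FL_eq]
    rw [this]
    refine (hm.pow _).mul ?_
    unfold fl
    refine Continuous.add ?_ ?_
    · apply Continuous.neg
      have hc1 : Continuous fun v : ℝ => ∫ u in (0:ℝ)..1, f u * ph Q (u * v) := by
        apply intervalIntegral.continuous_parametric_intervalIntegral_of_continuous'
        exact (hfc.comp continuous_snd).mul ((ph_cont h1 Q).comp (continuous_snd.mul continuous_fst))
      exact hc1.comp hm
    · refine continuous_tsum (u := fun i => D * TT Q j₀ C s κ i) (fun i => ?_) (hsT.mul_left D) (fun i v => ?_)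
      · exact (bl_cont h1 hw c hfc (j₀ + i)).comp hm
      · rw [Real.norm_eq_abs]
        exact hlarge2 i _ (le_max_right _ _)
  · -- growth
    refine ⟨fun i => D * (3 * (1 + C) * (s * qa Q j₀ i + κ * qc Q j₀ i)), ?_, fun i v hv => ?_⟩
    · exact (((ha.mul_left s).add (hc'.mul_left κ)).mul_left (3 * (1 + C))).mul_left D
    · rw [BL_eq, abs_mul, abs_of_nonneg (by positivity : (0:ℝ) ≤ v ^ (4 * Q + 3))]
      have := bl_small h1 h2 hd (by omega) (by omega) hC.le hw hs.le hκ.le hD hc hf i hv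
      have e : (v:ℝ) ^ (8 * Q + 7) = v ^ (4 * Q + 3) * v ^ (4 * Q + 4) := by rw [← pow_add]; congr 1; ring
      calc v ^ (4 * Q + 3) * |bl Q j₀ a0 w c f (j₀ + i) v|
          ≤ v ^ (4 * Q + 3) * (D * (3 * (1 + C) * (s * qa Q j₀ i + κ * qc Q j₀ i)) * v ^ (4 * Q + 4)) :=
            mul_le_mul_of_nonneg_left this (by positivity)
        _ = _ := by rw [e]; ring

end Pool.Agent.H394R3.ET
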