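import Pool.Agent.H394R3.ET.Src
import Pool.Agent.H96R3.BC.Asm

/-!
# TASK MACH: the fixed point with a forcing
-/

set_option autoImplicit false

open Finset MeasureTheory

namespace Pool.Agent.H394R3.ET

open Pool.Agent.H96R3.BC Pool.Agent.H336R4.BC

/-- the coefficients at the composite numbers -/
noncomputable def cN (y : ℕ → ℝ) (n : ℕ) : ℝ := if n.Prime then 0 else cf y n

lemma mass_of {Q j₀ : ℕ} {s C₁ : ℝ} {X : ℕ → ℕ} {P0 : ℕ → Finset ℕ} {a0 : ℕ → ℝ} (hB : Base C₁ X P0 a0)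
    (hQ : 1 ≤ Q) (hj0 : 3 ≤ j₀)
    (hm : ∀ j, j₀ ≤ j → ∀ T : Finset ℕ, T ⊆ CC Q j → (∀ n ∈ T, Squarefree n ∧ ¬ (n.Prime ∧ a0 n = 0) ∧ True) →
      ∑ n ∈ T, ∏ p ∈ n.primeFactors, gg Q j₀ a0 p ≤ s * (CC Q j).card / (Real.log j) ^ 3) : Mass Q j₀ s := by
  intro j hj T hT hT2
  refine le_trans (Finset.sum_le_sum fun n hn => Finset.prod_le_prod (fun p _ => by positivity) (fun p hp => ?_))
    (hm j hj T (hT.trans (Finset.filter_subset _ _)) (fun n hn => ⟨(hT2 n hn).1, fun h => ?_, trivial⟩))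
  · have hp2 := (hT2 n hn).2 p hp
    unfold gg
    split_ifs with h
    · have h1 : ∃ i, p ∈ P0 i := by
        by_contra h2
        push Not at h2
        exact h (hB.off p h2)
      obtain ⟨i, hi⟩ := h1
      rw [hB.val i p hi]
      have h2 : 1 ≤ AA (X i) := Real.one_le_exp (Real.sqrt_nonneg _)
      refine le_trans ?_ h2
      have h3 : (9:ℝ) ≤ p := by
        have h4 : 3 ^ 2 ≤ j₀ ^ (2 * Q) := by
          calc 3 ^ 2 ≤ j₀ ^ 2 := Nat.pow_le_pow_left hj0 2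
            _ ≤ j₀ ^ (2 * Q) := Nat.pow_le_pow_right (by omega) (by omega)
        have h5 : 9 ≤ p := by omega
        exact_mod_cast h5
      have h6 : 2 ≤ Real.log p := by
        rw [Real.le_log_iff_exp_le (by linarith)]
        have h7 : Real.exp 2 = Real.exp 1 * Real.exp 1 := by rw [← Real.exp_add]; norm_num
        rw [h7]
        have := Real.exp_one_lt_d9
        have h8 := Real.exp_pos 1
        nlinarith
      rw [div_le_one (by positivity)]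
      nlinarith
    · exact le_rfl
  · have h1 := hT hn
    unfold KC at h1
    exact (Finset.mem_filter.1 h1).2 h.1

lemma cN_diff {Q j₀ : ℕ} {y y' : ℕ → ℝ} {D : ℝ} (hD : 0 ≤ D)
    (hy : ∀ n : ℕ, |y n| ≤ 1 / (Real.log n) ^ 2) (hy' : ∀ n : ℕ, |y' n| ≤ 1 / (Real.log n) ^ 2)
    (hy0 : ∀ n, n ≤ j₀ ^ (2 * Q) → y n = 0) (hy0' : ∀ n, n ≤ j₀ ^ (2 * Q) → y' n = 0)
    (hd : ∀ n : ℕ, |y n - y' n| ≤ D * (1 / 2 / (Real.log n) ^ 2)) (n : ℕ) :
    |cN y n - cN y' n| ≤ D * (if ¬ n.Prime ∧ Squarefree n ∧ ∀ p ∈ n.primeFactors, j₀ ^ (2 * Q) < p then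
      ∏ p ∈ n.primeFactors, (2 / (Real.log p) ^ 2) else 0) ∧
    |cN y n| ≤ (if ¬ n.Prime ∧ Squarefree n ∧ ∀ p ∈ n.primeFactors, j₀ ^ (2 * Q) < p then
      ∏ p ∈ n.primeFactors, (2 / (Real.log p) ^ 2) else 0) := by
  unfold cN
  by_cases hp : n.Prime
  · simp [hp]
  rw [if_neg hp, if_neg hp]
  by_cases hs : Squarefree n
  · unfold cf
    rw [if_pos hs, if_pos hs]
    by_cases hall : ∀ p ∈ n.primeFactors, j₀ ^ (2 * Q) < p
    · rw [if_pos ⟨hp, hs, hall⟩]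
      refine prod_diff n.primeFactors y y' (fun p => 1 / (Real.log p) ^ 2) (fun p => 1 / 2 / (Real.log p) ^ 2)
        (fun p => 2 / (Real.log p) ^ 2) hD (fun p _ => hy p) (fun p _ => hy' p) (fun p _ => by positivity)
        (fun p _ => hd p) (fun p _ => ?_)
      rw [← add_div]
      apply div_le_div_of_nonneg_right _ (by positivity)
      norm_num
    · rw [if_neg (fun h => hall h.2.2)]
      push Not at hall
      obtain ⟨p, hp1, hp2⟩ := hall
      rw [Finset.prod_eq_zero hp1 (hy0 p hp2), Finset.prod_eq_zero hp1 (hy0' p hp2)]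
      simp
  · unfold cf
    rw [if_neg hs, if_neg hs, if_neg (fun h => hs h.2.1)]
    simp

lemma cN_mass {Q j₀ : ℕ} {s : ℝ} (hM : Mass Q j₀ s) {a0 y y' : ℕ → ℝ} {D : ℝ} (hD : 0 ≤ D)
    (hy : ∀ n : ℕ, |y n| ≤ 1 / (Real.log n) ^ 2) (hy' : ∀ n : ℕ, |y' n| ≤ 1 / (Real.log n) ^ 2)
    (hy0 : ∀ n, n ≤ j₀ ^ (2 * Q) → y n = 0) (hy0' : ∀ n, n ≤ j₀ ^ (2 * Q) → y' n = 0)
    (hd : ∀ n : ℕ, |y n - y' n| ≤ D * (1 / 2 / (Real.log n) ^ 2)) {j : ℕ} (hj : j₀ ≤ j) :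
    ∑ n ∈ NB Q a0 j, |cN y n - cN y' n| ≤ D * (s * (CC Q j).card / (Real.log j) ^ 3) ∧
    ∑ n ∈ NB Q a0 j, |cN y n| ≤ s * (CC Q j).card / (Real.log j) ^ 3 := by
  classical
  have key : ∑ n ∈ NB Q a0 j, (if ¬ n.Prime ∧ Squarefree n ∧ ∀ p ∈ n.primeFactors, j₀ ^ (2 * Q) < p then
      ∏ p ∈ n.primeFactors, (2 / (Real.log p) ^ 2) else 0) ≤ s * (CC Q j).card / (Real.log j) ^ 3 := by
    rw [← Finset.sum_filter]
    apply hM j hj
    · intro n hn
      rw [Finset.mem_filter] at hn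
      unfold NB at hn
      unfold KC
      exact Finset.mem_filter.2 ⟨(Finset.mem_filter.1 hn.1).1, hn.2.1⟩
    · intro n hn
      rw [Finset.mem_filter] at hn
      exact ⟨hn.2.2.1, hn.2.2.2⟩
  have h := cN_diff (Q := Q) (j₀ := j₀) hD hy hy' hy0 hy0' hd
  constructor
  · calc _ ≤ ∑ n ∈ NB Q a0 j, D * (if ¬ n.Prime ∧ Squarefree n ∧ ∀ p ∈ n.primeFactors, j₀ ^ (2 * Q) < p then
          ∏ p ∈ n.primeFactors, (2 / (Real.log p) ^ 2) else 0) := Finset.sum_le_sum fun n _ => (h n).1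
      _ = D * ∑ n ∈ NB Q a0 j, (if ¬ n.Prime ∧ Squarefree n ∧ ∀ p ∈ n.primeFactors, j₀ ^ (2 * Q) < p then
          ∏ p ∈ n.primeFactors, (2 / (Real.log p) ^ 2) else 0) := by rw [Finset.mul_sum]
      _ ≤ _ := mul_le_mul_of_nonneg_left key hD
  · exact (Finset.sum_le_sum fun n _ => (h n).2).trans key

/-- the identity for the cell contributions -/
lemma Bf_eq {Q j₀ : ℕ} (hK : TaskKer1) {C : ℝ} {a0 : ℕ → ℝ} {w : ℕ → ℝ → ℝ} (hw : Wts Q j₀ C a0 w)
    {s x : ℕ → ℝ} (hs : Frc Q j₀ s) {f : ℝ → ℝ} (hf : Continuous f) {j : ℕ} (hQ : 1 ≤ Q) (hj1 : 1 ≤ j₀) (hj : j₀ ≤ j)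
    (hx : ∀ p ∈ CC Q j, p.Prime → x p = XL Q j₀ a0 w (cN (fun p => s p + x p)) f j p) (v : ℝ) :
    Bf Q j₀ (fun p => s p + x p) f j v = Sj Q j₀ s j v + BL Q j₀ a0 w (cN (fun p => s p + x p)) f j v := by
  classical
  set y : ℕ → ℝ := fun p => s p + x p with hy
  set a := UU j₀ j with ha
  set b := UU j₀ (j + 1) with hb
  set K : ℝ → ℝ := fun u => KK (4 * Q + 4) u v with hKdef
  have hKc : Continuous K := KK_cont_left hK (by omega) v
  set R : ℕ → ℝ := fun p => (∫ u in a..b, f u * w p u) - ∑ n ∈ NB Q a0 j, cN y n * (vv Q j₀ n) ^ 2 * w p (vv Q j₀ n) with hR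
  have hI : ∫ u in a..b, f u * EE Q j₀ w j u v = (∫ u in a..b, f u * K u) -
      ∑ p ∈ CC Q j, (∫ u in a..b, f u * w p u) * K (vv Q j₀ p) := by
    have e1 : ∀ u, f u * EE Q j₀ w j u v = f u * K u - ∑ p ∈ CC Q j, (f u * w p u) * K (vv Q j₀ p) := by
      intro u
      unfold EE
      rw [mul_sub, mul_sum]
      congr 1
      apply sum_congr rfl
      intro p _
      ring
    simp_rw [e1]
    rw [intervalIntegral.integral_sub, intervalIntegral.integral_finsetSum]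
    · congr 1
      apply sum_congr rfl
      intro p _
      rw [intervalIntegral.integral_mul_const]
    · intro p _
      exact Continuous.intervalIntegrable ((hf.mul (hw.cont p)).mul continuous_const) _ _
    · exact Continuous.intervalIntegrable (hf.mul hKc) _ _
    · exact Continuous.intervalIntegrable (continuous_finsetSum _ fun p _ => (hf.mul (hw.cont p)).mul continuous_const) _ _
  have hS : ∑ n ∈ NB Q a0 j, cN y n * (vv Q j₀ n) ^ 2 * EE Q j₀ w j (vv Q j₀ n) v =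
      ∑ n ∈ NB Q a0 j, cN y n * (vv Q j₀ n) ^ 2 * K (vv Q j₀ n) -
      ∑ p ∈ CC Q j, (∑ n ∈ NB Q a0 j, cN y n * (vv Q j₀ n) ^ 2 * w p (vv Q j₀ n)) * K (vv Q j₀ p) := by
    simp_rw [sum_mul]
    rw [sum_comm, ← sum_sub_distrib]
    apply sum_congr rfl
    intro n _
    unfold EE
    rw [mul_sub, mul_sum]
    congr 1
    apply sum_congr rfl
    intro p _
    ring
  have hterm : ∀ n ∈ CC Q j, cf y n * (vv Q j₀ n) ^ 2 * K (vv Q j₀ n) =
      cN y n * (vv Q j₀ n) ^ 2 * K (vv Q j₀ n) + (s n * (vv Q j₀ n) ^ 2 * K (vv Q j₀ n) + R n * K (vv Q j₀ n)) := by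
    intro n hn
    have hn0 : vv Q j₀ n ≠ 0 := by
      have h1 := (Pool.Agent.H96R3.BC.vv_mem (j₀ := j₀) hQ hn).1
      have h2 := Pool.Agent.H96R3.BC.UU_pos hj1 hj
      linarith
    by_cases hp : n.Prime
    · have e1 : cN y n = 0 := if_pos hp
      have e2 : x n * (vv Q j₀ n) ^ 2 = R n := by
        rw [hx n hn hp]
        unfold XL
        rw [div_mul_cancel₀ _ (pow_ne_zero 2 hn0)]
      rw [e1, cf_prime y hp, ← e2]
      show (s n + x n) * _ * _ = _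
      ring
    · have e1 : cN y n = cf y n := if_neg hp
      have e2 : s n = 0 := by
        by_contra h
        exact hp (hs.supp n h).1
      have hw0 : ∀ u, w n u = 0 := by
        intro u
        by_contra h
        exact hp (hw.supp n u h).1
      have e3 : R n = 0 := by
        rw [hR]
        simp [hw0]
      rw [e1, e2, e3]
      ring
  have hNB : ∑ n ∈ CC Q j, cN y n * (vv Q j₀ n) ^ 2 * K (vv Q j₀ n) =
      ∑ n ∈ NB Q a0 j, cN y n * (vv Q j₀ n) ^ 2 * K (vv Q j₀ n) := by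
    symm
    apply Finset.sum_subset (NB_sub _ _ _)
    intro n hn hn2
    have hp : n.Prime := by
      by_contra h
      apply hn2
      unfold NB
      exact Finset.mem_filter.2 ⟨hn, fun h2 => h h2.1⟩
    have e1 : cN y n = 0 := if_pos hp
    rw [e1]
    ring
  have hmain : ∑ n ∈ CC Q j, cf y n * (vv Q j₀ n) ^ 2 * KK (4 * Q + 4) (vv Q j₀ n) v =
      ∑ n ∈ NB Q a0 j, cN y n * (vv Q j₀ n) ^ 2 * K (vv Q j₀ n) + (Sj Q j₀ s j v + ∑ p ∈ CC Q j, R p * K (vv Q j₀ p)) := by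
    have e0 : ∑ n ∈ CC Q j, cf y n * (vv Q j₀ n) ^ 2 * KK (4 * Q + 4) (vv Q j₀ n) v =
        ∑ n ∈ CC Q j, cf y n * (vv Q j₀ n) ^ 2 * K (vv Q j₀ n) := rfl
    rw [e0, Finset.sum_congr rfl hterm, Finset.sum_add_distrib, Finset.sum_add_distrib, hNB]
    rfl
  unfold Bf BL
  rw [hI, hS, hmain]
  have e3 : ∑ p ∈ CC Q j, R p * K (vv Q j₀ p) = ∑ p ∈ CC Q j, (∫ u in a..b, f u * w p u) * K (vv Q j₀ p) -
      ∑ p ∈ CC Q j, (∑ n ∈ NB Q a0 j, cN y n * (vv Q j₀ n) ^ 2 * w p (vv Q j₀ n)) * K (vv Q j₀ p) := by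
    rw [← sum_sub_distrib]
    apply sum_congr rfl
    intro p _
    rw [hR]
    ring
  rw [e3]
  show _ - (∫ u in a..b, f u * K u) = _
  ring

end Pool.Agent.H394R3.ET
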