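import Pool.Agent.H394R3.ET.FixB2
import Pool.Agent.H394R3.BC.Cell
import Pool.Agent.H96R3.BC.Fix3

/-!
# The source term produced by a forcing
-/

set_option autoImplicit false

open Finset MeasureTheory

namespace Pool.Agent.H394R3.ET

open Pool.Agent.H96R3.BC Pool.Agent.H336R4.BC
open Pool.Agent.H394R3.BC (Ker cellB cellM cellB_poly cellB_sub cellB_abs_le Ker_cont_left Ker_taylor_gen Ker_le_pow
  cell_taylor fac_pos one_le_fac Ker_eq)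

/-- Taylor bound near `v = 0` -/
theorem cell_taylor0 (k m : ℕ) {A u : ℕ → ℝ} {f : ℝ → ℝ} (hf : Continuous f) {S : Finset ℕ} {a b v : ℝ}
    (ha : 0 ≤ a) (hab : a ≤ b) (hu : ∀ n ∈ S, u n ∈ Set.Icc a b) (hv : 0 ≤ v)
    (hm : ∀ i < m, cellB A u f S a b (fun w => (w - a) ^ i) = 0) :
    |cellB A u f S a b (fun w => Ker k w v)| ≤ (b - a) ^ m * v ^ (k + m) * cellM A f S a b := by
  set P : ℝ → ℝ := fun w => ∑ i ∈ Finset.range m, (w - a) ^ i *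
    ((-1) ^ i * Ker (k + i) a v / (i.factorial : ℝ)) with hP
  have hPc : Continuous P := by rw [hP]; fun_prop
  have h0 := cellB_poly (A := A) (u := u) hf S a b m
    (fun i => (-1) ^ i * Ker (k + i) a v / (i.factorial : ℝ)) hm
  have h1 := cellB_sub (A := A) (u := u) hf (Ker_cont_left k v) hPc S a b
  have h2 : cellB A u f S a b P = 0 := h0
  rw [h2, sub_zero] at h1
  rw [← h1]
  apply cellB_abs_le hf ((Ker_cont_left k v).sub hPc) hab hu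
  intro w hw
  have h3 := Ker_taylor_gen k m a w v (v ^ (k + m)) (fun s hs => by
    rw [Set.uIcc_of_le hw.1] at hs
    exact (Ker_le_pow (k + m) (ha.trans hs.1) hv).trans (div_le_self (pow_nonneg hv _) (one_le_fac _)))
  have e : (∑ i ∈ Finset.range m, (w - a) ^ i / (i.factorial : ℝ) * ((-1) ^ i * Ker (k + i) a v)) = P w := by
    rw [hP]
    apply Finset.sum_congr rfl
    intro i _
    ring
  rw [e] at h3
  refine h3.trans ?_
  rw [abs_of_nonneg (by linarith [hw.1] : 0 ≤ w - a)]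
  have h4 : (w - a) ^ m ≤ (b - a) ^ m := pow_le_pow_left₀ (by linarith [hw.1]) (by linarith [hw.2]) m
  have h5 := fac_pos m
  have h7 := one_le_fac m
  have h6 : 0 ≤ v ^ (k + m) := pow_nonneg hv _
  have h8 : 0 ≤ (w - a) ^ m := pow_nonneg (by linarith [hw.1]) m
  calc _ ≤ (w - a) ^ m * v ^ (k + m) := by
        apply mul_le_mul_of_nonneg_right _ h6
        exact div_le_self h8 h7
    _ ≤ _ := by gcongr

/-- contribution of the forcing in the cell `j` -/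
noncomputable def Sj (Q j₀ : ℕ) (s : ℕ → ℝ) (j : ℕ) (v : ℝ) : ℝ :=
  ∑ p ∈ CC Q j, s p * (vv Q j₀ p) ^ 2 * KK (4 * Q + 4) (vv Q j₀ p) v

lemma Sj_eq (Q j₀ : ℕ) (s : ℕ → ℝ) (j : ℕ) (v : ℝ) :
    Sj Q j₀ s j v = cellB (fun n => s n * (vv Q j₀ n) ^ 2) (vv Q j₀) (fun _ => 0) (CC Q j) (UU j₀ j) (UU j₀ (j + 1))
      (fun w => Ker (4 * Q + 3) w v) := by
  unfold Sj cellB
  simp only [zero_mul, intervalIntegral.integral_zero, sub_zero]
  rfl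

lemma Sj_mom {Q j₀ : ℕ} {s : ℕ → ℝ} (hs : Frc Q j₀ s) {j : ℕ} (hj : j₀ ≤ j) (i : ℕ) (hi : i < 4 * Q + 4) :
    cellB (fun n => s n * (vv Q j₀ n) ^ 2) (vv Q j₀) (fun _ => 0) (CC Q j) (UU j₀ j) (UU j₀ (j + 1))
      (fun w => (w - UU j₀ j) ^ i) = 0 := by
  unfold cellB
  simp only [zero_mul, intervalIntegral.integral_zero, sub_zero]
  have h := hs.mom j hj ((Polynomial.X - Polynomial.C (UU j₀ j)) ^ i) (by
    rw [Polynomial.natDegree_pow, Polynomial.natDegree_X_sub_C, mul_one]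
    exact hi)
  simpa using h

lemma one_le_log_CC {Q j₀ j n : ℕ} (hQ : 1 ≤ Q) (hj0 : 3 ≤ j₀) (hj : j₀ ≤ j) (hn : n ∈ CC Q j) : 1 ≤ Real.log n := by
  have h1 : 3 ≤ n := by
    have h2 := (mem_CC.1 hn).1
    have h3 : j ≤ j ^ (2 * Q) := Nat.le_self_pow (by omega) _
    omega
  have h2 : (3:ℝ) ≤ n := by exact_mod_cast h1
  rw [Real.le_log_iff_exp_le (by linarith)]
  have := Real.exp_one_lt_d9
  linarith

lemma Sj_mass {Q j₀ : ℕ} (hQ : 1 ≤ Q) (hj0 : 3 ≤ j₀) {s : ℕ → ℝ} (hs : Frc Q j₀ s) {j : ℕ} (hj : j₀ ≤ j) :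
    cellM (fun n => s n * (vv Q j₀ n) ^ 2) (fun _ => 0) (CC Q j) (UU j₀ j) (UU j₀ (j + 1)) ≤
      (CC Q j).card * UU j₀ (j + 1) ^ 2 := by
  unfold cellM
  simp only [abs_zero, intervalIntegral.integral_zero, add_zero]
  have h : ∀ n ∈ CC Q j, |s n * (vv Q j₀ n) ^ 2| ≤ UU j₀ (j + 1) ^ 2 := by
    intro n hn
    have h1 := one_le_log_CC hQ hj0 hj hn
    have h2 := hs.bd n
    have h3 : 1 / 2 / (Real.log n) ^ 2 ≤ 1 := by
      rw [div_le_one (by positivity)]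
      nlinarith
    have h4 := Pool.Agent.H96R3.BC.vv_mem (j₀ := j₀) hQ hn
    rw [abs_mul, abs_of_nonneg (sq_nonneg (vv Q j₀ n))]
    calc |s n| * (vv Q j₀ n) ^ 2 ≤ 1 * UU j₀ (j + 1) ^ 2 :=
          mul_le_mul (h2.trans h3) (pow_le_pow_left₀ (Pool.Agent.H96R3.BC.vv_nonneg _ _ _) h4.2 2) (sq_nonneg _) zero_le_one
      _ = _ := one_mul _
  calc _ ≤ ∑ n ∈ CC Q j, UU j₀ (j + 1) ^ 2 := Finset.sum_le_sum h
    _ = _ := by rw [Finset.sum_const, nsmul_eq_mul]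

lemma Sj_small {Q j₀ : ℕ} (hQ : 1 ≤ Q) (hj0 : 3 ≤ j₀) {s : ℕ → ℝ} (hs : Frc Q j₀ s) (i : ℕ) {v : ℝ} (hv : 0 ≤ v) :
    |Sj Q j₀ s (j₀ + i) v| ≤ qa Q j₀ i * v ^ (8 * Q + 7) := by
  rw [Sj_eq]
  have hU := Pool.Agent.H96R3.BC.UU_mono (j₀ := j₀) (show j₀ + i ≤ j₀ + i + 1 by omega)
  have h := cell_taylor0 (4 * Q + 3) (4 * Q + 4) (A := fun n => s n * (vv Q j₀ n) ^ 2) (u := vv Q j₀) (f := fun _ => 0)
    (S := CC Q (j₀ + i)) (a := UU j₀ (j₀ + i)) (b := UU j₀ (j₀ + i + 1)) continuous_const (Pool.Agent.H96R3.BC.UU_nonneg _ _) hU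
    (fun n hn => Pool.Agent.H96R3.BC.vv_mem hQ hn) hv (fun l hl => Sj_mom hs (by omega) l hl)
  have hm := Sj_mass hQ hj0 hs (j := j₀ + i) (by omega)
  refine h.trans ?_
  have h1 : 0 ≤ (UU j₀ (j₀ + i + 1) - UU j₀ (j₀ + i)) ^ (4 * Q + 4) := pow_nonneg (by linarith) _
  have h2 : (0:ℝ) ≤ v ^ (4 * Q + 3 + (4 * Q + 4)) := pow_nonneg hv _
  calc _ ≤ (UU j₀ (j₀ + i + 1) - UU j₀ (j₀ + i)) ^ (4 * Q + 4) * v ^ (4 * Q + 3 + (4 * Q + 4)) *
        ((CC Q (j₀ + i)).card * UU j₀ (j₀ + i + 1) ^ 2) := mul_le_mul_of_nonneg_left hm (by positivity)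
    _ = _ := by
        unfold qa
        have : 4 * Q + 3 + (4 * Q + 4) = 8 * Q + 7 := by ring
        rw [this]
        ring

lemma Sj_large {Q j₀ : ℕ} (hQ : 1 ≤ Q) (hj0 : 3 ≤ j₀) {s : ℕ → ℝ} (hs : Frc Q j₀ s) (i : ℕ) {v : ℝ} (hv : 0 ≤ v) :
    |Sj Q j₀ s (j₀ + i) v| ≤ qb Q j₀ i * v ^ (3 * Q + 2) := by
  rw [Sj_eq]
  have hU := Pool.Agent.H96R3.BC.UU_mono (j₀ := j₀) (show j₀ + i ≤ j₀ + i + 1 by omega)
  have hUp := Pool.Agent.H96R3.BC.UU_pos (j₀ := j₀) (j := j₀ + i) (by omega) (by omega)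
  have h := cell_taylor (4 * Q + 3) (2 * Q + 1) (A := fun n => s n * (vv Q j₀ n) ^ 2) (u := vv Q j₀) (f := fun _ => 0)
    (S := CC Q (j₀ + i)) (a := UU j₀ (j₀ + i)) (b := UU j₀ (j₀ + i + 1)) continuous_const hUp hU
    (fun n hn => Pool.Agent.H96R3.BC.vv_mem hQ hn) hv (fun l hl => Sj_mom hs (by omega) l (by omega))
  have hm := Sj_mass hQ hj0 hs (j := j₀ + i) (by omega)
  refine h.trans ?_
  have e1 : (v / UU j₀ (j₀ + i)) ^ (((4 * Q + 3 + (2 * Q + 1) : ℕ) : ℝ) / 2) = (v / UU j₀ (j₀ + i)) ^ (3 * Q + 2) := by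
    rw [← Real.rpow_natCast]
    congr 1
    push_cast
    ring
  rw [e1]
  have h1 : 0 ≤ (UU j₀ (j₀ + i + 1) - UU j₀ (j₀ + i)) ^ (2 * Q + 1) := pow_nonneg (by linarith) _
  have h2 : (0:ℝ) ≤ (v / UU j₀ (j₀ + i)) ^ (3 * Q + 2) := pow_nonneg (div_nonneg hv hUp.le) _
  have h3 := one_le_fac (2 * Q + 1)
  calc _ ≤ (UU j₀ (j₀ + i + 1) - UU j₀ (j₀ + i)) ^ (2 * Q + 1) * (v / UU j₀ (j₀ + i)) ^ (3 * Q + 2) *
        ((CC Q (j₀ + i)).card * UU j₀ (j₀ + i + 1) ^ 2) := by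
        apply mul_le_mul _ hm (Pool.Agent.H394R3.BC.cellM_nonneg _ _ _ hU) (by positivity)
        exact mul_le_mul_of_nonneg_right (div_le_self h1 h3) h2
    _ = _ := by
        unfold qb
        rw [div_pow]
        ring

lemma Sj_cont (h1 : TaskKer1) (Q j₀ : ℕ) (s : ℕ → ℝ) (j : ℕ) : Continuous fun v => Sj Q j₀ s j v := by
  unfold Sj
  exact continuous_finsetSum _ fun p _ => continuous_const.mul (KK_cont_right h1 (by omega) _)

/-- the source -/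
noncomputable def Sr (Q j₀ : ℕ) (s : ℕ → ℝ) (v : ℝ) : ℝ := ∑' i : ℕ, Sj Q j₀ s (j₀ + i) v

lemma Sj_summable {Q j₀ : ℕ} (hQ : 1 ≤ Q) (hj0 : 3 ≤ j₀) {s : ℕ → ℝ} (hs : Frc Q j₀ s) (ha : Summable (qa Q j₀))
    {v : ℝ} (hv : 0 ≤ v) : Summable fun i : ℕ => Sj Q j₀ s (j₀ + i) v :=
  Summable.of_norm_bounded (ha.mul_right (v ^ (8 * Q + 7))) fun i => by
    rw [Real.norm_eq_abs]; exact Sj_small hQ hj0 hs i hv

lemma Sr_le {Q j₀ : ℕ} (hQ : 1 ≤ Q) (hj0 : 3 ≤ j₀) {s : ℕ → ℝ} (hs : Frc Q j₀ s) (ha : Summable (qa Q j₀))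
    (hb : Summable (qb Q j₀)) {κ : ℝ} (hκ : 0 ≤ κ) (ha2 : ∑' i, qa Q j₀ i ≤ κ / 8) (hb2 : ∑' i, qb Q j₀ i ≤ κ / 8)
    {v : ℝ} (hv : 0 ≤ v) : |Sr Q j₀ s v| ≤ κ / 8 * NN Q v := by
  have hsum := Sj_summable hQ hj0 hs ha hv
  have h0 : |Sr Q j₀ s v| ≤ ∑' i, |Sj Q j₀ s (j₀ + i) v| := by
    have := norm_tsum_le_tsum_norm (f := fun i => Sj Q j₀ s (j₀ + i) v) (by simpa using hsum.abs)
    simpa [Sr] using this
  refine h0.trans ?_
  unfold NN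
  split_ifs with h
  · calc ∑' i, |Sj Q j₀ s (j₀ + i) v| ≤ ∑' i, qa Q j₀ i * v ^ (8 * Q + 7) :=
          Summable.tsum_le_tsum (fun i => Sj_small hQ hj0 hs i hv) hsum.abs (ha.mul_right _)
      _ = (∑' i, qa Q j₀ i) * v ^ (8 * Q + 7) := tsum_mul_right
      _ ≤ κ / 8 * v ^ (4 * Q + 3) := by
          apply mul_le_mul ha2 (pow_le_pow_of_le_one hv h (by omega)) (by positivity) (by positivity)
  · calc ∑' i, |Sj Q j₀ s (j₀ + i) v| ≤ ∑' i, qb Q j₀ i * v ^ (3 * Q + 2) :=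
          Summable.tsum_le_tsum (fun i => Sj_large hQ hj0 hs i hv) hsum.abs (hb.mul_right _)
      _ = (∑' i, qb Q j₀ i) * v ^ (3 * Q + 2) := tsum_mul_right
      _ ≤ κ / 8 * v ^ (3 * Q + 2) := mul_le_mul_of_nonneg_right hb2 (by positivity)

lemma Sr_cont (h1 : TaskKer1) {Q j₀ : ℕ} (hQ : 1 ≤ Q) (hj0 : 3 ≤ j₀) {s : ℕ → ℝ} (hs : Frc Q j₀ s)
    (ha : Summable (qa Q j₀)) : Continuous fun v : ℝ => Sr Q j₀ s (max v 0) := by
  rw [continuous_iff_continuousAt]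
  intro v₀
  have hon : ContinuousOn (fun v : ℝ => Sr Q j₀ s (max v 0)) (Set.Iio (|v₀| + 1)) := by
    unfold Sr
    refine continuousOn_tsum (u := fun i => qa Q j₀ i * (|v₀| + 1) ^ (8 * Q + 7)) (fun i => ?_) (ha.mul_right _) ?_
    · exact ((Sj_cont h1 Q j₀ s (j₀ + i)).comp (continuous_id.max continuous_const)).continuousOn
    · intro i v hv
      rw [Real.norm_eq_abs]
      refine (Sj_small hQ hj0 hs i (le_max_right _ _)).trans ?_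
      apply mul_le_mul_of_nonneg_left _ (q_nonneg Q j₀ i).1
      apply pow_le_pow_left₀ (le_max_right _ _)
      exact max_le (le_of_lt hv) (by positivity)
  refine hon.continuousAt (Iio_mem_nhds ?_)
  have := le_abs_self v₀
  linarith

end Pool.Agent.H394R3.ET
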